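import Pool.Agent.Lib.MP_565fc2_lc.SM.Defs

/-!
# SM-A1: `Poly F`

`Poly.exists_hom`: induction on `h` (generalizing `B`).  `triv`: `B = ⊥`.  `step`: if the restriction of `f` to `B` is not trivial take it; otherwise `B ≤ f.ker`, and the induction
hypothesis for `B.subgroupOf f.ker` gives `ρ`; compose it with the isomorphism of `B` with `B.subgroupOf f.ker` (`Subgroup.subgroupOfEquivOfLe`).
`not_descChain_poly`: the kernel of `g 0` is a nontrivial subgroup of `A 1`.
-/

set_option autoImplicit false

namespace Pool.SC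

open Function

theorem Poly.exists_hom {F : (S : Type) → [Group S] → Prop} {A : Type} [Group A] (h : Poly F A) (B : Subgroup A)
    (hB : B ≠ ⊥) : ∃ (S : Type) (_ : Group S) (ρ : B →* S), F S ∧ ρ ≠ 1 := by
  induction h with
  | triv A hA =>
    exact absurd (Subsingleton.elim _ _) hB
  | @step A S iA iS f hS hk ih =>
    by_cases hf : f.comp B.subtype = 1
    · have hle : B ≤ f.ker := by
        intro x hx
        have := DFunLike.congr_fun hf ⟨x, hx⟩
        simpa [MonoidHom.mem_ker] using this
      have hne : B.subgroupOf f.ker ≠ ⊥ := by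
        intro h0
        apply hB
        rw [Subgroup.subgroupOf_eq_bot] at h0
        exact Disjoint.eq_bot_of_le h0 hle
      obtain ⟨T, iT, ρ, hT, hρ⟩ := ih (B.subgroupOf f.ker) hne
      refine ⟨T, iT, ρ.comp (Subgroup.subgroupOfEquivOfLe hle).symm.toMonoidHom, hT, ?_⟩
      intro h1
      apply hρ
      ext x
      have := DFunLike.congr_fun h1 (Subgroup.subgroupOfEquivOfLe hle x)
      simpa using this
    · exact ⟨S, iS, f.comp B.subtype, hS, hf⟩

theorem not_descChain_poly (F : (S : Type) → [Group S] → Prop) : ¬ DescChain F (Poly F) := by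
  rintro ⟨A, iA, g, h⟩
  obtain ⟨-, -, -, hinj, htriv⟩ := h 0
  obtain ⟨-, hP, -, -, -⟩ := h 1
  have hne : (g 0).ker ≠ ⊥ := by
    intro h0
    exact hinj ((MonoidHom.ker_eq_bot_iff _).1 h0)
  obtain ⟨S, iS, ρ, hS, hρ⟩ := Poly.exists_hom hP (g 0).ker hne
  exact hρ (htriv S hS ρ)

end Pool.SC
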