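import Pool.Agent.Lib.MP_565fc2_lc.SM.Defs

/-!
# SM-A2: the groups `GL n k` form an equationally noetherian family

Generic matrices: `R₀ = MvPolynomial (Fin m × Bool × Fin n × Fin n) ℤ`, `X j`, `Y j` the matrices of the variables `(j, true, ·, ·)`, `(j, false, ·, ·)`, `R = R₀ ⧸ I` with `I` generated by
all entries of `X j * Y j - 1`, `Y j * X j - 1`: a noetherian commutative ring (Hilbert basis theorem, in Mathlib).  `Φ : FreeGroup (Fin m) →* (Matrix (Fin n) (Fin n) R)ˣ` maps `j` to
the unit `X j` (inverse `Y j`).  For a field `k` and `s : Fin m → GL n k` there is `φ : R →+* k` with `(Φ w).map φ = lift s w` for all `w` (both sides are homomorphisms of `w`, they agree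
on the generators).  For `W` the ideal generated by the entries of `Φ w - 1`, `w ∈ W`, is finitely generated, so it is generated by the entries for `w` in a finite `W₀ ⊆ W`
(`Submodule.fg_span_iff_fg_span_finset_subset` or `Submodule.FG` and compactness).  If `lift s w = 1` for `w ∈ W₀`, then `φ` kills this ideal.
A general `S` with `S ≃* GL n k`: transport `s` along the isomorphism (`map_lift` of `FreeGroup`).
-/

set_option autoImplicit false

namespace Pool.SC

/-- the variables -/
private abbrev A2_V (m n : ℕ) : Type := Fin m × Bool × Fin n × Fin n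

/-- the generic matrix -/
private noncomputable def A2_X (m n : ℕ) (x : Fin m × Bool) : Matrix (Fin n) (Fin n) (MvPolynomial (A2_V m n) ℤ) :=
  Matrix.of fun i j => MvPolynomial.X (x.1, x.2, i, j)

/-- the matrix of a word -/
private noncomputable def A2_P (m n : ℕ) (w : FreeGroup (Fin m)) :
    Matrix (Fin n) (Fin n) (MvPolynomial (A2_V m n) ℤ) :=
  (w.toWord.map (A2_X m n)).prod

/-- the entries of the generic matrix of a word minus the identity matrix -/
private def A2_E (m n : ℕ) (W : Set (FreeGroup (Fin m))) : Set (MvPolynomial (A2_V m n) ℤ) :=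
  {p | ∃ w ∈ W, ∃ i j, p = (A2_P m n w - 1) i j}

/-- the evaluation -/
private noncomputable def A2_ev (m n : ℕ) {k : Type} [Field k] (s : Fin m → Matrix.GeneralLinearGroup (Fin n) k) :
    MvPolynomial (A2_V m n) ℤ →+* k :=
  MvPolynomial.eval₂Hom (Int.castRingHom k)
    (fun x => cond x.2.1 ((s x.1 : Matrix (Fin n) (Fin n) k) x.2.2.1 x.2.2.2)
      (((s x.1)⁻¹ : Matrix.GeneralLinearGroup (Fin n) k).val x.2.2.1 x.2.2.2))

private theorem A2_ev_X (m n : ℕ) {k : Type} [Field k] (s : Fin m → Matrix.GeneralLinearGroup (Fin n) k)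
    (x : Fin m × Bool) :
    (A2_ev m n s).mapMatrix (A2_X m n x) =
      ((cond x.2 (s x.1) (s x.1)⁻¹ : Matrix.GeneralLinearGroup (Fin n) k) : Matrix (Fin n) (Fin n) k) := by
  obtain ⟨a, b⟩ := x
  ext i j
  simp only [RingHom.mapMatrix_apply, Matrix.map_apply, A2_X, Matrix.of_apply, A2_ev,
    MvPolynomial.coe_eval₂Hom, MvPolynomial.eval₂_X]
  cases b <;> rfl

private theorem A2_ev_P (m n : ℕ) {k : Type} [Field k] (s : Fin m → Matrix.GeneralLinearGroup (Fin n) k)
    (w : FreeGroup (Fin m)) :
    (A2_ev m n s).mapMatrix (A2_P m n w) =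
      ((FreeGroup.lift s w : Matrix.GeneralLinearGroup (Fin n) k) : Matrix (Fin n) (Fin n) k) := by
  have h1 : FreeGroup.lift s w = (w.toWord.map fun x => cond x.2 (s x.1) (s x.1)⁻¹).prod := by
    conv_lhs => rw [← FreeGroup.mk_toWord (x := w)]
    rw [FreeGroup.lift_mk]
  rw [h1, A2_P, map_list_prod, ← Units.coeHom_apply, map_list_prod, List.map_map, List.map_map]
  congr 1
  apply List.map_congr_left
  intro x _
  simp only [Function.comp_apply, Units.coeHom_apply]
  exact A2_ev_X m n s x

theorem noethFam_GLF (n : ℕ) : NoethFam (GLF n) := by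
  classical
  intro m W
  have hfg : (Submodule.span (MvPolynomial (A2_V m n) ℤ) (A2_E m n W)).FG :=
    IsNoetherian.noetherian _
  rw [Submodule.fg_span_iff_fg_span_finset_subset] at hfg
  obtain ⟨E₀, hE₀, hspan⟩ := hfg
  have hch : ∀ p : {p // p ∈ E₀}, ∃ w ∈ W, ∃ i j, p.1 = (A2_P m n w - 1) i j := fun p => hE₀ p.2
  choose g hgW hg using hch
  refine ⟨Set.range g, ?_, Set.finite_range g, ?_⟩
  · rintro _ ⟨p, rfl⟩
    exact hgW p
  rintro S _ ⟨k, hk, ⟨e⟩⟩ s hs w hw
  have hle : ∀ u : FreeGroup (Fin m), FreeGroup.lift (fun a => e (s a)) u = e (FreeGroup.lift s u) := by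
    intro u
    have h1 : (FreeGroup.lift (fun a => e (s a))) = e.toMonoidHom.comp (FreeGroup.lift s) := by
      apply FreeGroup.ext_hom
      intro a
      simp
    rw [h1]
    rfl
  have hP : ∀ u : FreeGroup (Fin m), (A2_ev m n (fun a => e (s a))).mapMatrix (A2_P m n u) =
      ((e (FreeGroup.lift s u) : Matrix.GeneralLinearGroup (Fin n) k) : Matrix (Fin n) (Fin n) k) := by
    intro u
    rw [A2_ev_P, hle]
  have hker : Submodule.span (MvPolynomial (A2_V m n) ℤ) (A2_E m n W) ≤
      RingHom.ker (A2_ev m n (fun a => e (s a))) := by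
    rw [hspan, Submodule.span_le]
    intro p hp
    obtain ⟨i, j, hij⟩ := hg ⟨p, hp⟩
    have h2 := hP (g ⟨p, hp⟩)
    rw [hs _ ⟨_, rfl⟩, map_one, Units.val_one] at h2
    have h3 : (A2_ev m n (fun a => e (s a))).mapMatrix (A2_P m n (g ⟨p, hp⟩) - 1) = 0 := by
      rw [map_sub, h2, map_one, sub_self]
    have h4 := congrFun (congrFun h3 i) j
    rw [RingHom.mapMatrix_apply, Matrix.map_apply, ← hij] at h4
    exact h4
  have h5 : (A2_ev m n (fun a => e (s a))).mapMatrix (A2_P m n w - 1) = 0 := by
    ext i j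
    rw [RingHom.mapMatrix_apply, Matrix.map_apply]
    exact hker (Submodule.subset_span ⟨w, hw, i, j, rfl⟩)
  rw [map_sub, map_one, sub_eq_zero, hP w] at h5
  have h6 : e (FreeGroup.lift s w) = 1 := Units.ext h5
  exact (map_eq_one_iff e e.injective).1 h6

end Pool.SC
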