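import Pool.Agent.Lib.MP_565fc2_lc.SM.Defs

/-!
# SM-B1: quotients which keep the radical; killing one homomorphism

`ker_le_cfr`: for `x ∈ ker f`, `e ∈ fcr D` the element `x e x⁻¹ e⁻¹` is in `fcr D` (normal, `fcr_normal`) and `f` kills it.  `cfr_map`: `f x ∈ cfr L` gives `f (x e x⁻¹ e⁻¹) = 1`.
`kill`: `ScGenP` (`scGenP dehnHyp b1 b4`) for `E = fcr D` (finite by `b1`), `κ = Unit`, `H () = ρ.ker.map (cfr D).subtype`: it has finite index in `D` (`centralizer_finiteIndex`, and `ρ.ker` has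
finite index in `cfr D`), `h` from `exists_lox_mem b2 b3`, `FinConj H x → x ∈ fcr D` by `finConj_top_of_finiteIndex`; `ι = Unit`, `g () = x₀` with `ρ x₀ ≠ 1`;
`M ∪ {e ∈ fcr D | e ≠ 1}` in place of `M`.  `x = x₀ * u`: `ρ x = ρ x₀`, `f x = 1` as it is the relator.  `fcr L ≤ (fcr D).map f` is the last conclusion of `ScGenP`, the other inclusion
is `map_mem_fcr`.
-/

set_option autoImplicit false

namespace Pool.SC

open Function

theorem Keep.id {D : Type} [Group D] (hD : NEH D) (M : Set D) (h1 : (1 : D) ∉ M) : Keep M (MonoidHom.id D) := by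
  refine ⟨fun x => ⟨x, rfl⟩, hD, ?_, ?_, ?_⟩
  · intro m hm h
    rw [MonoidHom.id_apply] at h
    exact h1 (h ▸ hm)
  · intro x _ h
    exact h
  · rw [Subgroup.map_id]

theorem Keep.comp {D L L' : Type} [Group D] [Group L] [Group L'] {M : Set D} {M' : Set L} {f : D →* L} {g : L →* L'}
    (hf : Keep M f) (hg : Keep M' g) (hM : ∀ m ∈ M, f m ∈ M') : Keep M (g.comp f) := by
  refine ⟨hg.surj.comp hf.surj, hg.neh, ?_, ?_, ?_⟩
  · intro m hm
    exact hg.avoid _ (hM m hm)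
  · intro x hx h
    refine hf.inj x hx (hg.inj (f x) ?_ h)
    rw [hf.fcr_eq]
    exact Subgroup.mem_map_of_mem f hx
  · rw [hg.fcr_eq, hf.fcr_eq, Subgroup.map_map]

theorem Keep.ker_le_cfr {D L : Type} [Group D] [Group L] {M : Set D} {f : D →* L} (h : Keep M f) : f.ker ≤ cfr D := by
  intro x hx
  rw [cfr, Subgroup.mem_centralizer_iff]
  intro e he
  have h1 : x * e * x⁻¹ * e⁻¹ ∈ fcr D := mul_mem (fcr_normal.conj_mem e he x) (inv_mem he)
  have h2 : f (x * e * x⁻¹ * e⁻¹) = 1 := by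
    rw [MonoidHom.mem_ker] at hx
    simp only [map_mul, map_inv, hx]
    simp
  have h3 := h.inj _ h1 h2
  calc e * x = (x * e * x⁻¹ * e⁻¹)⁻¹ * (x * e) := by group
    _ = x * e := by rw [h3]; group

theorem Keep.cfr_map {D L : Type} [Group D] [Group L] {M : Set D} {f : D →* L} (h : Keep M f) : cfr L = (cfr D).map f := by
  ext y
  constructor
  · intro hy
    obtain ⟨x, rfl⟩ := h.surj y
    refine Subgroup.mem_map_of_mem f ?_
    rw [cfr, Subgroup.mem_centralizer_iff] at hy ⊢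
    intro e he
    have h0 : f e ∈ (fcr L : Set L) := by
      rw [h.fcr_eq]
      exact Subgroup.mem_map_of_mem f he
    have h1 : x * e * x⁻¹ * e⁻¹ ∈ fcr D := mul_mem (fcr_normal.conj_mem e he x) (inv_mem he)
    have h2 : f (x * e * x⁻¹ * e⁻¹) = 1 := by
      simp only [map_mul, map_inv]
      rw [← hy _ h0]
      group
    have h3 := h.inj _ h1 h2
    calc e * x = (x * e * x⁻¹ * e⁻¹)⁻¹ * (x * e) := by group
      _ = x * e := by rw [h3]; group
  · rintro ⟨x, hx, rfl⟩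
    have hx' : x ∈ cfr D := hx
    rw [cfr, Subgroup.mem_centralizer_iff] at hx' ⊢
    intro e he
    rw [h.fcr_eq] at he
    obtain ⟨e', he', rfl⟩ := he
    rw [← map_mul, ← map_mul, hx' e' he']

theorem cfr_finiteIndex {D : Type} [Group D] (hD : NEH D) : (cfr D).FiniteIndex := by
  have := b1 D hD
  exact centralizer_finiteIndex (fcr D)

theorem kill {D : Type} [Group D] (hD : NEH D) {S : Type} [Group S] (ρ : cfr D →* S) (hfin : Finite ρ.range)
    (hρ : ρ ≠ 1) (M : Set D) (hM : M.Finite) (h1 : (1 : D) ∉ M) :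
    ∃ (L : Type) (_ : Group L) (f : D →* L), Keep M f ∧ ∃ x : cfr D, f x = 1 ∧ ρ x ≠ 1 := by
  have hfcr := b1 D hD
  have hcfi := cfr_finiteIndex hD
  have hkfi : ρ.ker.FiniteIndex := Subgroup.finiteIndex_ker ρ
  obtain ⟨H, hH⟩ : ∃ H : Subgroup D, H = ρ.ker.map (cfr D).subtype := ⟨_, rfl⟩
  have hHfi : H.FiniteIndex := by
    refine ⟨?_⟩
    rw [hH, Subgroup.index_map_subtype]
    exact mul_ne_zero hkfi.index_ne_zero hcfi.index_ne_zero
  have hHle : H ≤ cfr D := by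
    rw [hH]
    rintro _ ⟨x, _, rfl⟩
    exact x.2
  obtain ⟨h, hh, hl⟩ := exists_lox_mem b2 b3 hD.1 hD.infinite_A H
  obtain ⟨x₀, hx₀⟩ : ∃ x₀ : cfr D, ρ x₀ ≠ 1 := by
    by_contra hcon
    push Not at hcon
    exact hρ (MonoidHom.ext hcon)
  have hM' : (M ∪ {e : D | e ∈ fcr D ∧ e ≠ 1}).Finite := by
    refine hM.union (Set.Finite.subset (s := (fcr D : Set D)) hfcr ?_)
    rintro e ⟨he, _⟩
    exact he
  have h1' : (1 : D) ∉ M ∪ {e : D | e ∈ fcr D ∧ e ≠ 1} := by
    rintro (h2 | ⟨_, h2⟩)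
    · exact h1 h2
    · exact h2 rfl
  obtain ⟨u, hu, hNEH, hav, hrad⟩ := scGenP dehnHyp b1 b4 D (fcr D) hD.1 Unit (fun _ => H) (fun _ => h) ⟨()⟩
    (fun _ => hHle) (fun _ => hh) (fun _ => hl) (fun σ τ hne => (hne rfl).elim)
    (fun _ x hx => finConj_top_of_finiteIndex H hx) Unit (fun _ => ()) (fun _ => (x₀ : D)) (fun _ => x₀.2)
    (M ∪ {e : D | e ∈ fcr D ∧ e ≠ 1}) hM' h1'
  have hq : ∀ y : D, QuotientGroup.mk' (Subgroup.normalClosure (Set.range fun i : Unit => (x₀ : D) * u i)) y = 1 ↔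
      y ∈ Subgroup.normalClosure (Set.range fun i : Unit => (x₀ : D) * u i) := fun y => QuotientGroup.eq_one_iff y
  refine ⟨D ⧸ Subgroup.normalClosure (Set.range fun i : Unit => (x₀ : D) * u i), inferInstance,
    QuotientGroup.mk' _, ⟨QuotientGroup.mk'_surjective _, hNEH, ?_, ?_, ?_⟩, ?_⟩
  · intro m hm h2
    exact hav m (Or.inl hm) ((hq m).1 h2)
  · intro x hx h2
    by_contra hx1
    exact hav x (Or.inr ⟨hx, hx1⟩) ((hq x).1 h2)
  · apply le_antisymm hrad
    rintro _ ⟨x, hx, rfl⟩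
    exact map_mem_fcr _ (QuotientGroup.mk'_surjective _) hx
  · have h3 := hu ()
    rw [hH] at h3
    obtain ⟨k, hk, hku⟩ := h3
    refine ⟨x₀ * k, ?_, ?_⟩
    · rw [hq]
      apply Subgroup.subset_normalClosure
      refine ⟨(), ?_⟩
      change (x₀ : D) * u () = (x₀ : D) * (k : D)
      rw [← hku]
      rfl
    · rw [map_mul, (MonoidHom.mem_ker).1 hk, mul_one]
      exact hx₀

end Pool.SC
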