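import Pool.Agent.Lib.MP_565fc2_lc.SM.B1

/-!
# SM-B2: killing all homomorphisms to a noetherian family

`killAll`.  `cfr D` is finitely generated (`cfr_finiteIndex`, `WordHyp.fg_A`, `Subgroup.fg_of_index_ne_zero`): `φ : FreeGroup (Fin m) →* cfr D` surjective.  Suppose the conclusion is false.
Consider the quotients `f : D →* L` with `Keep M f` (bundle them in a structure; the first one is `Keep.id`).  For each of them there are `F S` and `ρ : cfr L →* S` with finite image,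
`ρ ≠ 1`; `kill` (with the finite set `f '' M`) gives `g : L →* L'` with `Keep (f '' M) g`, so `Keep M (g.comp f)` (`Keep.comp`), and `x ∈ cfr L` with `g x = 1`, `ρ x ≠ 1`.
Dependent choice: `L 0 = D, L 1, …`, `f n : D →* L n`, `f (n+1) = g n ∘ f n`.  `W = {w | ∃ n, f n (φ w) = 1}`.  `hF` gives a finite `W₀ ⊆ W`; as `f n (φ w) = 1` implies
`f (n+1) (φ w) = 1` there is `n` with `f n (φ w) = 1` for all `w ∈ W₀`.  Put `s j = ρ (f n (φ (of j)))` (`f n` maps `cfr D` onto `cfr (L n)`, `Keep.cfr_map`), so `lift s w = ρ (f n (φ w))`.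
So `lift s w = 1` for `w ∈ W₀`, hence for `w ∈ W`.  But `x = f n (φ w)` for some `w`, and `f (n+1) (φ w) = g x = 1`, `w ∈ W`: `ρ x = 1`.
-/

set_option autoImplicit false

namespace Pool.SC

open Function

private theorem B2_free {A : Type} [Group A] (h : Group.FG A) :
    ∃ (m : ℕ) (φ : FreeGroup (Fin m) →* A), Surjective φ := by
  obtain ⟨α, _, φ, hφ⟩ := Group.fg_iff_exists_freeGroup_hom_surjective_finite.1 h
  obtain ⟨n, ⟨e⟩⟩ := Finite.exists_equiv_fin α
  exact ⟨n, φ.comp (FreeGroup.freeGroupCongr e).symm.toMonoidHom,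
    hφ.comp (FreeGroup.freeGroupCongr e).symm.surjective⟩

/-- a quotient which keeps the radical and the elements of `M` -/
private structure B2_Q {D : Type} [Group D] (M : Set D) where
  L : Type
  [grp : Group L]
  f : D →* L
  keep : Keep M f

attribute [local instance] B2_Q.grp

/-- `q'` is a quotient of `q` in which an element is killed that is not killed by a homomorphism to a member of `F` -/
private def B2_Step (F : (S : Type) → [Group S] → Prop) {D : Type} [Group D] {M : Set D} (q q' : B2_Q M) : Prop :=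
  (∀ d : D, q.f d = 1 → q'.f d = 1) ∧ ∃ (S : Type) (_ : Group S) (ρ : cfr q.L →* S), F S ∧
    ∃ x : cfr q.L, ρ x ≠ 1 ∧ ∀ d : D, q.f d = x → q'.f d = 1

private theorem B2_next {F : (S : Type) → [Group S] → Prop} {D : Type} [Group D] {M : Set D} (hM : M.Finite)
    (q : B2_Q M) (hq : ¬ FPerf F (cfr q.L)) : ∃ q' : B2_Q M, B2_Step F q q' := by
  unfold FPerf at hq
  push Not at hq
  obtain ⟨S, _, hFS, ρ, hfin, hρ⟩ := hq
  obtain ⟨L', _, g, hg, x, hgx, hρx⟩ := kill q.keep.neh ρ hfin hρ (q.f '' M) (hM.image _) (by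
    rintro ⟨m, hm, h⟩
    exact q.keep.avoid m hm h)
  refine ⟨⟨L', g.comp q.f, q.keep.comp hg fun m hm => ⟨m, hm, rfl⟩⟩, ?_, S, _, ρ, hFS, x, hρx, ?_⟩
  · intro d hd
    show g (q.f d) = 1
    rw [hd, map_one]
  · intro d hd
    show g (q.f d) = 1
    rw [hd]
    exact hgx

theorem killAll {F : (S : Type) → [Group S] → Prop} (hF : NoethFam F) {D : Type} [Group D] (hD : NEH D)
    (M : Set D) (hM : M.Finite) (h1 : (1 : D) ∉ M) :
    ∃ (L : Type) (_ : Group L) (f : D →* L), Keep M f ∧ FPerf F (cfr L) := by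
  by_contra hcon
  have H : ∀ q : B2_Q M, ¬ FPerf F (cfr q.L) := fun q hq => hcon ⟨q.L, q.grp, q.f, q.keep, hq⟩
  choose nx hnx using fun q : B2_Q M => B2_next hM q (H q)
  have hfg : Group.FG (cfr D) := by
    have h2 : Group.FG D := hD.1.fg_A
    have h3 := cfr_finiteIndex hD
    infer_instance
  obtain ⟨m, φ, hφ⟩ := B2_free hfg
  let q₀ : B2_Q M := ⟨D, MonoidHom.id D, Keep.id hD M h1⟩
  obtain ⟨sq, -, hsq⟩ : ∃ sq : ℕ → B2_Q M, sq 0 = q₀ ∧ ∀ n, sq (n + 1) = nx (sq n) :=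
    ⟨fun n => Nat.rec q₀ (fun _ q => nx q) n, rfl, fun n => rfl⟩
  have hmono : ∀ (d : D) (n k : ℕ), (sq n).f d = 1 → (sq (n + k)).f d = 1 := by
    intro d n k h
    induction k with
    | zero => exact h
    | succ k ih =>
      have h4 := (hnx (sq (n + k))).1 d ih
      rw [← hsq] at h4
      exact h4
  obtain ⟨W₀, hsub, hfin, hW⟩ := hF m {w | ∃ n, (sq n).f (φ w : D) = 1}
  have h5 : ∀ w ∈ W₀, ∃ n, (sq n).f (φ w : D) = 1 := fun w hw => hsub hw
  choose! nw hnw using h5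
  obtain ⟨N, hN⟩ := (hfin.image nw).bddAbove
  have h6 : ∀ w ∈ W₀, (sq N).f (φ w : D) = 1 := by
    intro w hw
    have h7 : nw w ≤ N := hN ⟨w, hw, rfl⟩
    have h8 := hmono (φ w : D) (nw w) (N - nw w) (hnw w hw)
    rwa [Nat.add_sub_cancel' h7] at h8
  have hstep := hnx (sq N)
  rw [← hsq] at hstep
  obtain ⟨S, _, ρ, hFS, x, hρx, hx⟩ := hstep.2
  have hmap := (sq N).keep.cfr_map
  let ψ : cfr D →* cfr (sq N).L := ((sq N).f.comp (cfr D).subtype).codRestrict (cfr (sq N).L) (fun y => by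
    rw [hmap]
    exact ⟨y, y.2, rfl⟩)
  have hψ : ∀ y : cfr D, (ψ y : (sq N).L) = (sq N).f (y : D) := fun y => rfl
  have hlift : ∀ w, FreeGroup.lift (fun j => ρ (ψ (φ (FreeGroup.of j)))) w = ρ (ψ (φ w)) := by
    intro w
    have h9 : FreeGroup.lift (fun j => ρ (ψ (φ (FreeGroup.of j)))) = (ρ.comp ψ).comp φ :=
      FreeGroup.ext_hom _ _ fun j => by simp
    rw [h9]
    rfl
  have h10 := hW S hFS (fun j => ρ (ψ (φ (FreeGroup.of j)))) (fun w hw => by
    rw [hlift]
    have h11 : ψ (φ w) = 1 := Subtype.ext ((hψ (φ w)).trans (h6 w hw))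
    rw [h11, map_one])
  have hx' : (x : (sq N).L) ∈ (cfr D).map (sq N).f := by
    rw [← hmap]
    exact x.2
  obtain ⟨d, hd, hdx⟩ := hx'
  obtain ⟨w, hw⟩ := hφ ⟨d, hd⟩
  have hwd : (φ w : D) = d := by rw [hw]
  have h12 : (sq (N + 1)).f (φ w : D) = 1 := by
    rw [hwd]
    exact hx d hdx
  have h13 := h10 w ⟨N + 1, h12⟩
  rw [hlift] at h13
  have h14 : ψ (φ w) = x := Subtype.ext (by rw [hψ, hwd, hdx])
  rw [h14] at h13
  exact hρx h13

end Pool.SC
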