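import Pool.Agent.Lib.MP_565fc2_lc.SM.B2

/-!
# SM-C1: the order of the group `A` is locally constant

`mem_HA`: `isRad_iff b1`.  `isoInv_HA`: `t_neh_equiv`, transport of `IsRad` along an isomorphism (see the private lemmas of SN/W1; copy what you need), `π.comp e.symm`.
`keep_HA`: `quoE p f : L ≃* (quoM p f).grp` (SC/TNeh); `π` factors through `f` because `f.ker ≤ cfr p.grp = π.ker` (`Keep.ker_le_cfr`), the kernel of the induced homomorphism of `L` is
`(cfr p.grp).map f = cfr L` (`Keep.cfr_map`).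
`exists_killed`: `exists_finite_avoid` (SC/TMain), `killAll`, `keep_HA`.
`cardConst`.  Suppose it is false.  From `p ∈ U ∩ HA P` with `FPerf F (cfr p.grp)` (`exists_killed`): `exists_open_quotients fpk p (MonoidHom.id _)` with `{x ∈ fcr p.grp | x ≠ 1}` (see SN/W2,
`noeth_local`) gives an open `V₀ ∋ p`; there is `q ∈ U ∩ V₀ ∩ HA P` with `(cfr q.grp).index ≠ (cfr p.grp).index`, and `f : p.grp →* q.grp` surjective, injective on `fcr p.grp`;
`exists_killed` for `q` gives `p'` and `h : q.grp →* p'.grp`.  `F' = h ∘ f`.  `(cfr p'.grp).comap F' = (cfr q.grp).comap f ≤ cfr p.grp` (an element whose image centralizes `f (fcr p.grp)`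
centralizes `fcr p.grp`, by injectivity).  Let `π : p.grp →* A`, `π' : p'.grp →* A'` be as in `mem_HA`: `π` factors through `π' ∘ F'`, which gives `g : A' →* A`, surjective;
`g.ker` is the image of `cfr p.grp` (so a homomorphism `ρ : g.ker →* S`, `F S`, gives `cfr p.grp →* S` with finite image, trivial by `FPerf`, so `ρ = 1`); `g` is not injective as the
indices are different (`(cfr p'.grp).index = (cfr q.grp).index`).  Dependent choice on `{p // p ∈ U ∩ HA P ∧ FPerf F (cfr p.grp)}`: `DescChain F P`.  (`A` is finite: `cfr_finiteIndex`.)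
-/

set_option autoImplicit false

namespace Pool.SC

open Function

private theorem C1_fcr_equiv {G G' : Type} [Group G] [Group G'] (e : G ≃* G') : (fcr G).map e.toMonoidHom = fcr G' := by
  apply le_antisymm
  · rintro _ ⟨x, hx, rfl⟩
    exact map_mem_fcr e.toMonoidHom e.surjective hx
  · intro y hy
    exact ⟨e.symm y, map_mem_fcr e.symm.toMonoidHom e.symm.surjective hy, e.apply_symm_apply y⟩

private theorem C1_mem_cfr {G : Type} [Group G] {x : G} : x ∈ cfr G ↔ ∀ h ∈ fcr G, h * x = x * h :=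
  Subgroup.mem_centralizer_iff

private theorem C1_cfr_equiv {G G' : Type} [Group G] [Group G'] (e : G ≃* G') {x : G} (hx : x ∈ cfr G) :
    e x ∈ cfr G' := by
  rw [C1_mem_cfr] at hx ⊢
  intro h hh
  rw [← C1_fcr_equiv e] at hh
  obtain ⟨y, hy, rfl⟩ := hh
  change e y * e x = e x * e y
  rw [← map_mul, ← map_mul, hx y hy]

private theorem C1_cfr_equiv_iff {G G' : Type} [Group G] [Group G'] (e : G ≃* G') {x : G} :
    e x ∈ cfr G' ↔ x ∈ cfr G := by
  constructor
  · intro h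
    have := C1_cfr_equiv e.symm h
    rwa [MulEquiv.symm_apply_apply] at this
  · exact C1_cfr_equiv e

theorem mem_HA {P : (A : Type) → [Group A] → Prop} {p : MGrp} : p ∈ HA P ↔ NEH p.grp ∧
    ∃ (A : Type) (_ : Group A) (π : p.grp →* A), Surjective π ∧ π.ker = cfr p.grp ∧ P A := by
  constructor
  · rintro ⟨hG, N, hN, A, iA, π, h1, h2, h3⟩
    rw [isRad_iff b1 hG] at hN
    subst hN
    exact ⟨hG, A, iA, π, h1, h2, h3⟩
  · rintro ⟨hG, A, iA, π, h1, h2, h3⟩
    exact ⟨hG, fcr p.grp, (isRad_iff b1 hG _).2 rfl, A, iA, π, h1, h2, h3⟩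

private theorem C1_HA_of {P : (A : Type) → [Group A] → Prop} {q : MGrp} {L A : Type} [Group L] [Group A]
    (e : q.grp ≃* L) (hL : NEH L) (π : L →* A) (h1 : Surjective π) (h2 : π.ker = cfr L) (h3 : P A) : q ∈ HA P := by
  refine mem_HA.2 ⟨t_neh_equiv e.symm hL, A, inferInstance, π.comp e.toMonoidHom, h1.comp e.surjective, ?_, h3⟩
  ext x
  rw [MonoidHom.mem_ker]
  change π (e x) = 1 ↔ _
  rw [← MonoidHom.mem_ker, h2]
  exact C1_cfr_equiv_iff e

theorem isoInv_HA (P : (A : Type) → [Group A] → Prop) : IsoInv (HA P) := by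
  rintro M M' ⟨e⟩ hM
  obtain ⟨hG, A, iA, π, h1, h2, h3⟩ := mem_HA.1 hM
  exact C1_HA_of e.symm hG π h1 h2 h3

theorem keep_HA {P : (A : Type) → [Group A] → Prop} {p : MGrp} {L : Type} [Group L] {M : Set p.grp} {f : p.grp →* L}
    (h : Keep M f) (hp : p ∈ HA P) : quoM p f ∈ HA P := by
  obtain ⟨hG, A, iA, π, h1, h2, h3⟩ := mem_HA.1 hp
  have hle : f.ker ≤ π.ker := by
    rw [h2]
    exact h.ker_le_cfr
  have hπL : ∀ x, (f.liftOfSurjective h.surj ⟨π, hle⟩) (f x) = π x := fun x =>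
    MonoidHom.liftOfRightInverse_comp_apply f _ _ ⟨π, hle⟩ x
  refine C1_HA_of (quoE p f h.surj) h.neh (f.liftOfSurjective h.surj ⟨π, hle⟩) ?_ ?_ h3
  · intro a
    obtain ⟨x, rfl⟩ := h1 a
    exact ⟨f x, hπL x⟩
  · rw [h.cfr_map]
    ext y
    obtain ⟨x, rfl⟩ := h.surj y
    rw [MonoidHom.mem_ker, hπL]
    constructor
    · intro hx
      exact ⟨x, h2 ▸ (MonoidHom.mem_ker.2 hx), rfl⟩
    · rintro ⟨z, hz, hzx⟩
      have hz' : π z = 1 := by
        have : z ∈ π.ker := h2 ▸ hz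
        exact this
      rw [← hπL, ← hzx, hπL, hz']

/-- transport of `FPerf` along an isomorphism -/
private theorem C1_fperf {F : (S : Type) → [Group S] → Prop} {G G' : Type} [Group G] [Group G'] (e : G ≃* G')
    (h : FPerf F (cfr G)) : FPerf F (cfr G') := by
  intro S _ hS ρ hfin
  let τ : cfr G →* cfr G' :=
    (e.toMonoidHom.comp (cfr G).subtype).codRestrict (cfr G') fun x => C1_cfr_equiv e x.2
  have hτ : Surjective τ := by
    rintro ⟨y, hy⟩
    refine ⟨⟨e.symm y, C1_cfr_equiv e.symm hy⟩, Subtype.ext (e.apply_symm_apply y)⟩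
  have hle : (ρ.comp τ).range ≤ ρ.range := by
    rintro _ ⟨x, rfl⟩
    exact ⟨τ x, rfl⟩
  have hfin' : Finite (ρ.comp τ).range := by
    have h1 : (ρ.range : Set S).Finite := Set.toFinite _
    exact (h1.subset hle).to_subtype
  have h2 := h S hS (ρ.comp τ) hfin'
  ext y
  obtain ⟨x, rfl⟩ := hτ y
  exact DFunLike.congr_fun h2 x

theorem exists_killed {F P : (S : Type) → [Group S] → Prop} (hF : NoethFam F) {U : Set MGrp} (hU : IsOpen U) {p : MGrp}
    (hp : p ∈ U) (hpP : p ∈ HA P) :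
    ∃ q ∈ U, q ∈ HA P ∧ FPerf F (cfr q.grp) ∧ ∃ (M : Set p.grp) (f : p.grp →* q.grp), Keep M f := by
  obtain ⟨M, hM, hM1, hMU⟩ := exists_finite_avoid hU hp
  obtain ⟨L, _, f, hf, hperf⟩ := killAll hF (mem_HA.1 hpP).1 M hM hM1
  have e : (quoM p f).grp ≃* L := quoE p f hf.surj
  refine ⟨quoM p f, hMU L f hf.avoid, keep_HA hf hpP, C1_fperf e.symm hperf, M, e.symm.toMonoidHom.comp f, ?_⟩
  refine ⟨e.symm.surjective.comp hf.surj, t_neh_equiv e.symm hf.neh, ?_, ?_, ?_⟩
  · intro m hm h1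
    refine hf.avoid m hm ?_
    exact (e.symm.map_eq_one_iff).1 h1
  · intro x hx h1
    exact hf.inj x hx ((e.symm.map_eq_one_iff).1 h1)
  · rw [← C1_fcr_equiv e.symm, hf.fcr_eq, Subgroup.map_map]

private theorem C1_id (p : MGrp) : quoM p (MonoidHom.id p.grp) = p := by
  apply MGrp.ext'
  ext w
  rw [mem_quoM]
  exact QuotientGroup.eq_one_iff w

/-- one step of the descending chain -/
private theorem C1_step {F P : (S : Type) → [Group S] → Prop} (hF : NoethFam F) {U : Set MGrp} (hU : IsOpen U)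
    (hcon : ¬ ∃ V ⊆ U, IsOpen V ∧ (V ∩ HA P).Nonempty ∧ ∃ a : ℕ, ∀ q ∈ V, q ∈ HA P → (cfr q.grp).index = a)
    {p : MGrp} (hp : p ∈ U) (hpP : p ∈ HA P) :
    ∃ q ∈ U, q ∈ HA P ∧ FPerf F (cfr q.grp) ∧ ∃ f : p.grp →* q.grp, Surjective f ∧
      (cfr q.grp).comap f ≤ cfr p.grp ∧ (cfr q.grp).index ≠ (cfr p.grp).index := by
  have hG : NEH p.grp := (mem_HA.1 hpP).1
  have hfin : Finite (fcr p.grp) := b1 _ hG
  obtain ⟨V0, hV0o, hpV0, hV0⟩ := exists_open_quotients fpk p (MonoidHom.id p.grp) surjective_id hG.1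
    {x : p.grp | x ∈ fcr p.grp ∧ x ≠ 1} ((Set.toFinite (fcr p.grp : Set p.grp)).subset fun x hx => hx.1)
    (fun h => h.2 rfl)
  rw [C1_id] at hpV0
  obtain ⟨q, hq, hqP, hne⟩ : ∃ q ∈ U ∩ V0, q ∈ HA P ∧ (cfr q.grp).index ≠ (cfr p.grp).index := by
    by_contra hc
    push Not at hc
    exact hcon ⟨U ∩ V0, Set.inter_subset_left, hU.inter hV0o, ⟨p, ⟨hp, hpV0⟩, hpP⟩, (cfr p.grp).index,
      fun q hq hqP => hc q hq hqP⟩
  obtain ⟨f, hf, hfM⟩ := hV0 q hq.2
  have hinj : ∀ x ∈ fcr p.grp, f x = 1 → x = 1 := by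
    intro x hx h1
    by_contra hne1
    exact hfM x ⟨hx, hne1⟩ h1
  obtain ⟨q', hq'U, hq'P, hperf, M, h, hK⟩ := exists_killed (F := F) hF hU hq.1 hqP
  have hcm : (cfr q'.grp).comap h = cfr q.grp := by
    rw [hK.cfr_map, Subgroup.comap_map_eq]
    exact sup_eq_left.2 hK.ker_le_cfr
  refine ⟨q', hq'U, hq'P, hperf, h.comp f, hK.surj.comp hf, ?_, ?_⟩
  · rw [← Subgroup.comap_comap, hcm]
    intro x hx
    have hx' : f x ∈ cfr q.grp := hx
    rw [C1_mem_cfr] at hx' ⊢
    intro y hy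
    have h1 : f (x * y * x⁻¹ * y⁻¹) = 1 := by
      have h2 := hx' (f y) (map_mem_fcr f hf hy)
      rw [map_mul, map_mul, map_mul, map_inv, map_inv, ← h2]
      group
    have h3 : x * y * x⁻¹ * y⁻¹ ∈ fcr p.grp :=
      (fcr p.grp).mul_mem ((fcr_normal (G := p.grp)).conj_mem y hy x) ((fcr p.grp).inv_mem hy)
    have h4 := hinj _ h3 h1
    have h5 : x * y * x⁻¹ = y := mul_inv_eq_one.1 h4
    exact (mul_inv_eq_iff_eq_mul.1 h5).symm
  · have h1 : (cfr q'.grp).index = (cfr q.grp).index := by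
      rw [← hcm, Subgroup.index_comap_of_surjective _ hK.surj]
    rw [h1]
    exact hne

private theorem C1_finite {D A : Type} [Group D] [Group A] (hD : NEH D) (π : D →* A) (h1 : Surjective π)
    (h2 : π.ker = cfr D) : Finite A := by
  have h3 : π.ker.index ≠ 0 := by
    rw [h2]
    exact (cfr_finiteIndex hD).index_ne_zero
  rw [Subgroup.index_ker, MonoidHom.range_eq_top.2 h1] at h3
  have h4 : Nat.card A ≠ 0 := by
    have e : Nat.card (⊤ : Subgroup A) = Nat.card A := Nat.card_congr Subgroup.topEquiv.toEquiv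
    rw [← e]
    exact h3
  exact Nat.finite_of_card_ne_zero h4

/-- the homomorphism between the finite groups -/
private theorem C1_link {F : (S : Type) → [Group S] → Prop} {D D' A A' : Type} [Group D] [Group D'] [Group A] [Group A']
    (hD' : NEH D') (π : D →* A) (π' : D' →* A') (h1 : Surjective π) (h1' : Surjective π')
    (h2 : π.ker = cfr D) (h2' : π'.ker = cfr D') (f : D →* D') (hf : Surjective f)
    (hle : (cfr D').comap f ≤ cfr D) (hne : (cfr D').index ≠ (cfr D).index) (hperf : FPerf F (cfr D)) :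
    ∃ g : A' →* A, Surjective g ∧ ¬ Injective g ∧
      ∀ (S : Type) [Group S], F S → ∀ ρ : g.ker →* S, ρ = 1 := by
  have hs : Surjective (π'.comp f) := h1'.comp hf
  have hle' : (π'.comp f).ker ≤ π.ker := by
    rw [h2]
    refine le_trans ?_ hle
    intro x hx
    have h : π' (f x) = 1 := hx
    have h' : f x ∈ π'.ker := h
    rw [h2'] at h'
    exact h'
  have hg : ∀ x, ((π'.comp f).liftOfSurjective hs ⟨π, hle'⟩) (π' (f x)) = π x := fun x =>
    MonoidHom.liftOfRightInverse_comp_apply (π'.comp f) _ _ ⟨π, hle'⟩ x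
  obtain ⟨g, hgdef⟩ : ∃ g, g = (π'.comp f).liftOfSurjective hs ⟨π, hle'⟩ := ⟨_, rfl⟩
  rw [← hgdef] at hg
  refine ⟨g, ?_, ?_, ?_⟩
  · intro a
    obtain ⟨x, rfl⟩ := h1 a
    exact ⟨π' (f x), hg x⟩
  · intro hinj
    apply hne
    have h3 : (cfr D').comap f = cfr D := by
      refine le_antisymm hle ?_
      intro x hx
      have h4 : π x = 1 := by
        have : x ∈ π.ker := h2 ▸ hx
        exact this
      have h5 : π' (f x) = 1 := by
        apply hinj
        rw [hg, h4, map_one]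
      have h6 : f x ∈ π'.ker := h5
      rw [h2'] at h6
      exact h6
    rw [← h3, Subgroup.index_comap_of_surjective _ hf]
  · intro S _ hS ρ
    have hA' : Finite A' := C1_finite hD' π' h1' h2'
    let τ : cfr D →* g.ker :=
      ((π'.comp f).comp (cfr D).subtype).codRestrict g.ker (fun x => by
        rw [MonoidHom.mem_ker]
        change g (π' (f x)) = 1
        rw [hg]
        have : (x : D) ∈ π.ker := by
          rw [h2]
          exact x.2
        exact this)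
    have hτ : Surjective τ := by
      rintro ⟨z, hz⟩
      obtain ⟨x, rfl⟩ := hs z
      have h3 : x ∈ cfr D := by
        rw [← h2, MonoidHom.mem_ker, ← hg x]
        exact hz
      exact ⟨⟨x, h3⟩, rfl⟩
    have hfin : Finite (ρ.comp τ).range := by
      have h3 : (Set.range ρ).Finite := Set.finite_range ρ
      refine (h3.subset ?_).to_subtype
      rintro _ ⟨x, rfl⟩
      exact ⟨τ x, rfl⟩
    have h4 := hperf S hS (ρ.comp τ) hfin
    ext y
    obtain ⟨x, rfl⟩ := hτ y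
    exact DFunLike.congr_fun h4 x

theorem cardConst {F P : (S : Type) → [Group S] → Prop} (hF : NoethFam F) (hch : ¬ DescChain F P) (U : Set MGrp)
    (hU : IsOpen U) (hne : (U ∩ HA P).Nonempty) :
    ∃ V ⊆ U, IsOpen V ∧ (V ∩ HA P).Nonempty ∧ ∃ a : ℕ, ∀ q ∈ V, q ∈ HA P → (cfr q.grp).index = a := by
  by_contra hcon
  apply hch
  have hstep : ∀ x : {p : MGrp // p ∈ U ∧ p ∈ HA P ∧ FPerf F (cfr p.grp)},
      ∃ y : {p : MGrp // p ∈ U ∧ p ∈ HA P ∧ FPerf F (cfr p.grp)},
        ∃ f : x.1.grp →* y.1.grp, Surjective f ∧ (cfr y.1.grp).comap f ≤ cfr x.1.grp ∧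
          (cfr y.1.grp).index ≠ (cfr x.1.grp).index := by
    intro x
    obtain ⟨q, h1, h2, h3, h4⟩ := C1_step (F := F) hF hU hcon x.2.1 x.2.2.1
    exact ⟨⟨q, h1, h2, h3⟩, h4⟩
  choose nx hnx using hstep
  obtain ⟨p0, hp0U, hp0P⟩ := hne
  obtain ⟨p1, hp1U, hp1P, hp1F, -⟩ := exists_killed (F := F) hF hU hp0U hp0P
  let s : ℕ → {p : MGrp // p ∈ U ∧ p ∈ HA P ∧ FPerf F (cfr p.grp)} :=
    fun n => Nat.rec ⟨p1, hp1U, hp1P, hp1F⟩ (fun _ x => nx x) n
  have hs : ∀ n, ∃ f : (s n).1.grp →* (s (n + 1)).1.grp, Surjective f ∧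
      (cfr (s (n + 1)).1.grp).comap f ≤ cfr (s n).1.grp ∧
        (cfr (s (n + 1)).1.grp).index ≠ (cfr (s n).1.grp).index := fun n => hnx (s n)
  choose f hf1 hf2 hf3 using hs
  have hA : ∀ n, ∃ (A : Type) (_ : Group A) (π : (s n).1.grp →* A), Surjective π ∧ π.ker = cfr (s n).1.grp ∧ P A :=
    fun n => (mem_HA.1 (s n).2.2.1).2
  choose A iA π hπ1 hπ2 hPA using hA
  have hNEH : ∀ n, NEH (s n).1.grp := fun n => (mem_HA.1 (s n).2.2.1).1
  have hlink : ∀ n, ∃ g : A (n + 1) →* A n, Surjective g ∧ ¬ Injective g ∧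
      ∀ (S : Type) [Group S], F S → ∀ ρ : g.ker →* S, ρ = 1 := fun n =>
    C1_link (F := F) (hNEH (n + 1)) (π n) (π (n + 1)) (hπ1 n) (hπ1 (n + 1)) (hπ2 n) (hπ2 (n + 1)) (f n) (hf1 n)
      (hf2 n) (hf3 n) (s n).2.2.2
  choose g hg1 hg2 hg3 using hlink
  exact ⟨A, iA, g, fun n => ⟨C1_finite (hNEH n) (π n) (hπ1 n) (hπ2 n), hPA n, hg1 n, hg2 n, hg3 n⟩⟩

end Pool.SC
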