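import Pool.Agent.Lib.MP_565fc2_lc.SM.C1

/-!
# SM-C2: local structure of the class `HA P`

`cardConst` gives `V₁`, `a`.  Choose `p ∈ V₁ ∩ HA P` such that `(fcr p.grp ⊔ cfr p.grp).index` is minimal.  `exists_open_quotients fpk p (MonoidHom.id _)` with `{x ∈ fcr p.grp | x ≠ 1}` (see SN/W2,
`noeth_local`) gives `V₀`; `V = V₁ ∩ V₀`.  For `q ∈ V ∩ HA P`: `f : p.grp →* q.grp` surjective, injective on `fcr p.grp`.  `(cfr q.grp).comap f ≤ cfr p.grp` (injectivity) and both have index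
`a` (`Subgroup.index_comap_of_surjective`, `cfr_finiteIndex`), so they are equal.  `(fcr q.grp ⊔ cfr q.grp).comap f ≥ fcr p.grp ⊔ cfr p.grp` (`map_mem_fcr`), and its index is
`(fcr q.grp ⊔ cfr q.grp).index`, which is `≥` the minimum, so they are equal; take images under `f` (`Subgroup.map_comap_eq_self_of_surjective`, `Subgroup.map_sup`).
-/

set_option autoImplicit false

namespace Pool.SC

open Function

private theorem C2_eq {G : Type} [Group G] {H K : Subgroup G} (h : H ≤ K) (hi : H.index = K.index)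
    (h0 : K.index ≠ 0) : H = K := by
  refine le_antisymm h ?_
  rw [← Subgroup.relIndex_eq_one]
  have h1 := Subgroup.relIndex_mul_index h
  rw [hi] at h1
  exact (mul_eq_right₀ h0).1 h1

private theorem C2_id (p : MGrp) : quoM p (MonoidHom.id p.grp) = p := by
  apply MGrp.ext'
  ext w
  rw [mem_quoM]
  exact QuotientGroup.eq_one_iff w

private theorem C2_min {X : Type} (s : Set X) (hs : s.Nonempty) (φ : X → ℕ) : ∃ x ∈ s, ∀ y ∈ s, φ x ≤ φ y := by
  classical
  have hex : ∃ n, ∃ x ∈ s, φ x = n := by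
    obtain ⟨x, hx⟩ := hs
    exact ⟨φ x, x, hx, rfl⟩
  obtain ⟨x, hx, hn⟩ := Nat.find_spec hex
  refine ⟨x, hx, fun y hy => ?_⟩
  rw [hn]
  exact Nat.find_min' hex ⟨y, hy, rfl⟩

theorem localConst {F P : (S : Type) → [Group S] → Prop} (hF : NoethFam F) (hch : ¬ DescChain F P) (U : Set MGrp)
    (hU : IsOpen U) (hne : (U ∩ HA P).Nonempty) :
    ∃ p ∈ HA P, ∃ V ⊆ U, IsOpen V ∧ p ∈ V ∧ ∀ q ∈ V, q ∈ HA P → ∃ f : p.grp →* q.grp, Surjective f ∧
      (∀ x ∈ fcr p.grp, f x = 1 → x = 1) ∧ (cfr q.grp).comap f = cfr p.grp ∧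
      fcr q.grp ≤ (fcr p.grp).map f ⊔ cfr q.grp := by
  classical
  obtain ⟨V₁, hV₁U, hV₁o, hne₁, a, ha⟩ := cardConst hF hch U hU hne
  obtain ⟨p, hp, hmin⟩ := C2_min (V₁ ∩ HA P) hne₁ fun p => (fcr p.grp ⊔ cfr p.grp).index
  have hG : NEH p.grp := (mem_HA.1 hp.2).1
  have hfin : Finite (fcr p.grp) := b1 _ hG
  obtain ⟨V0, hV0o, hpV0, hV0⟩ := exists_open_quotients fpk p (MonoidHom.id p.grp) surjective_id hG.1
    {x : p.grp | x ∈ fcr p.grp ∧ x ≠ 1} ((Set.toFinite (fcr p.grp : Set p.grp)).subset fun x hx => hx.1)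
    (fun h => h.2 rfl)
  rw [C2_id] at hpV0
  refine ⟨p, hp.2, V₁ ∩ V0, Set.inter_subset_left.trans hV₁U, hV₁o.inter hV0o, ⟨hp.1, hpV0⟩, ?_⟩
  rintro q ⟨hqV₁, hqV0⟩ hqP
  obtain ⟨f, hf, hfM⟩ := hV0 q hqV0
  have hinj : ∀ x ∈ fcr p.grp, f x = 1 → x = 1 := by
    intro x hx h1
    by_contra hne1
    exact hfM x ⟨hx, hne1⟩ h1
  have hL : NEH q.grp := (mem_HA.1 hqP).1
  have fp : (cfr p.grp).FiniteIndex := cfr_finiteIndex hG
  have fq : (cfr q.grp).FiniteIndex := cfr_finiteIndex hL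
  have hcomap : (cfr q.grp).comap f = cfr p.grp := by
    refine C2_eq ?_ ?_ fp.index_ne_zero
    · intro x hx
      have hx' : f x ∈ cfr q.grp := hx
      unfold cfr at hx' ⊢
      rw [Subgroup.mem_centralizer_iff] at hx' ⊢
      intro e he
      have h1 : f e ∈ fcr q.grp := map_mem_fcr f hf he
      have h2 := hx' (f e) h1
      have h3 : f (x * e * x⁻¹ * e⁻¹) = 1 := by
        rw [map_mul, map_mul, map_mul, map_inv, map_inv, ← h2]
        group
      have h4 : x * e * x⁻¹ * e⁻¹ ∈ fcr p.grp :=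
        (fcr p.grp).mul_mem ((fcr_normal (G := p.grp)).conj_mem e he x) ((fcr p.grp).inv_mem he)
      have h5 := hinj _ h4 h3
      have h6 : x * e = e * x := by
        calc x * e = x * e * x⁻¹ * e⁻¹ * (e * x) := by group
          _ = e * x := by rw [h5, one_mul]
      exact h6.symm
    · rw [Subgroup.index_comap_of_surjective _ hf, ha q hqV₁ hqP, ha p hp.1 hp.2]
  refine ⟨f, hf, hinj, hcomap, ?_⟩
  have hle : fcr p.grp ⊔ cfr p.grp ≤ (fcr q.grp ⊔ cfr q.grp).comap f := by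
    refine sup_le ?_ ?_
    · intro x hx
      exact Subgroup.mem_sup_left (map_mem_fcr f hf hx)
    · intro x hx
      rw [← hcomap] at hx
      exact Subgroup.mem_sup_right hx
  have fs : (fcr p.grp ⊔ cfr p.grp).FiniteIndex := Subgroup.finiteIndex_of_le le_sup_right
  have heq : fcr p.grp ⊔ cfr p.grp = (fcr q.grp ⊔ cfr q.grp).comap f := by
    have fc : ((fcr q.grp ⊔ cfr q.grp).comap f).FiniteIndex := Subgroup.finiteIndex_of_le hle
    refine C2_eq hle ?_ fc.index_ne_zero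
    refine le_antisymm ?_ (Subgroup.index_antitone hle)
    rw [Subgroup.index_comap_of_surjective _ hf]
    exact hmin q ⟨hqV₁, hqP⟩
  intro y hy
  obtain ⟨x, rfl⟩ := hf y
  have hx : x ∈ (fcr q.grp ⊔ cfr q.grp).comap f := Subgroup.mem_sup_left hy
  rw [← heq] at hx
  have h1 : f x ∈ (fcr p.grp ⊔ cfr p.grp).map f := Subgroup.mem_map_of_mem f hx
  rw [Subgroup.map_sup] at h1
  have h2 : (cfr p.grp).map f ≤ cfr q.grp := by
    rintro _ ⟨z, hz, rfl⟩
    rw [← hcomap] at hz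
    exact hz
  have h3 : (fcr p.grp).map f ⊔ (cfr p.grp).map f ≤ (fcr p.grp).map f ⊔ cfr q.grp := sup_le_sup le_rfl h2
  exact h3 h1

end Pool.SC
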