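import Pool.Agent.Lib.MP_565fc2_lc.SM.Defs

/-!
# SM-D1: pushout of two radicals

Purely algebraic.  `Z₀ = fcr P ⊓ cfr P`, `Z₂ = fcr Y ⊓ cfr Y` (abelian).  `K = (fcr X × Z₂) ⧸ Θ`, `Θ` the range of `z ↦ (f z⁻¹, g z)`, `z ∈ Z₀` (`map_mem_fcr`; `f z ∈ cfr X` by `hfc`, so `f z` is central in
`fcr X`, and `Θ` is normal).  `P` acts on `fcr X × Z₂` by conjugation with `f p`, `g p`, and preserves `Θ`: `a : P →* MulAut K`; `cfr P ≤ a.ker` (by `hfc`, `hgc`).
`α`, `β` are the factorizations of `a` through `f`, `g` (`f.ker ≤ cfr P` by `hfc`; `MonoidHom.liftOfSurjective` or `liftOfRightInverse`).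
`e₁ k = [(k, 1)]`: injective by `hgi`.  `e₂`: `μ : fcr P × Z₂ →* fcr Y`, `(k, z) ↦ g k * z` is surjective (`hgr`: `k = g k₀ * c` with `c ∈ cfr Y`, `c = (g k₀)⁻¹ k ∈ Z₂`), `ν : fcr P × Z₂ →* K`,
`(k, z) ↦ [(f k, z)]`; `μ.ker = ν.ker` (`g k ∈ cfr Y` gives `k ∈ cfr P` by `hgc`), so there is an injective `e₂` with `e₂ ∘ μ = ν`.
`inner` for `e₁`: `k = f k₀ * c`, `c ∈ cfr X` (`hfr`), `α c = 1`, `α (f k₀) = a k₀` is conjugation with `[(f k₀, 1)]` (`g k₀ ∈ fcr Y` commutes with `Z₂ ≤ cfr Y`), and `c` acts trivially on `fcr X`.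
`inner` for `e₂`: `k = g k₀ * z`, `β z = 1`, `β (g k₀) = a k₀`, conjugation with `[(f k₀, z)]`.  `inn`: conjugation with `[(k, z)]` is conjugation with `[(k, 1)] = e₁ k`, which is `α k`; for `β`:
`α k = α (f k₀) = a k₀ = β (g k₀)`.
-/

set_option autoImplicit false

namespace Pool.SC

open Function

/-- a surjective homomorphism which kills less can be factored out -/
private theorem D1_factor {P X B : Type} [Group P] [Group X] [Group B] (f : P →* X) (hf : Surjective f)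
    (a : P →* B) (h : f.ker ≤ a.ker) : ∃ α : X →* B, ∀ p, α (f p) = a p := by
  let σ : X → P := Function.surjInv hf
  have hσ : ∀ x, f (σ x) = x := Function.surjInv_eq hf
  have key : ∀ p q, f p = f q → a p = a q := by
    intro p q hpq
    have h1 : p * q⁻¹ ∈ a.ker := h (by rw [MonoidHom.mem_ker, map_mul, map_inv, hpq, mul_inv_cancel])
    rw [MonoidHom.mem_ker, map_mul, map_inv] at h1
    exact mul_inv_eq_one.mp h1
  refine ⟨MonoidHom.mk' (fun x => a (σ x)) fun x y => ?_, fun p => key _ _ (hσ _)⟩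
  rw [← map_mul]
  exact key _ _ (by rw [map_mul, hσ, hσ, hσ])

/-- the action on a quotient -/
private theorem D1_quotAct {P A : Type} [Group P] [Group A] (Θ : Subgroup A) [Θ.Normal] (φ : P → A → A)
    (hm : ∀ p x y, φ p (x * y) = φ p x * φ p y) (hc : ∀ p q x, φ (p * q) x = φ p (φ q x)) (h1 : ∀ x, φ 1 x = x)
    (h : ∀ p, ∀ x ∈ Θ, φ p x ∈ Θ) :
    ∃ a : P →* MulAut (A ⧸ Θ), ∀ (p : P) (x : A), a p (x : A ⧸ Θ) = ((φ p x : A) : A ⧸ Θ) := by
  let F : P → (A →* A) := fun p => MonoidHom.mk' (φ p) (hm p)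
  let G : P → ((A ⧸ Θ) →* (A ⧸ Θ)) := fun p => QuotientGroup.map Θ Θ (F p) (fun x hx => h p x hx)
  have hG : ∀ (p : P) (x : A), G p (x : A ⧸ Θ) = ((φ p x : A) : A ⧸ Θ) := fun p x => rfl
  have hG1 : ∀ y, G 1 y = y := by
    intro y
    induction y using QuotientGroup.induction_on with
    | H x => rw [hG, h1]
  have hGm : ∀ p q y, G (p * q) y = G p (G q y) := by
    intro p q y
    induction y using QuotientGroup.induction_on with
    | H x => rw [hG, hG, hG, hc]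
  let E : P → MulAut (A ⧸ Θ) := fun p =>
    { toFun := G p
      invFun := G p⁻¹
      left_inv := fun y => by rw [← hGm, inv_mul_cancel, hG1]
      right_inv := fun y => by rw [← hGm, mul_inv_cancel, hG1]
      map_mul' := fun x y => map_mul (G p) x y }
  exact ⟨MonoidHom.mk' E fun p q => MulEquiv.ext fun y => hGm p q y, fun p x => hG p x⟩

theorem pushRad {P X Y : Type} [Group P] [Group X] [Group Y] (hX : Finite (fcr X)) (hY : Finite (fcr Y))
    (f : P →* X) (g : P →* Y) (hf : Surjective f) (hg : Surjective g)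
    (hfi : ∀ x ∈ fcr P, f x = 1 → x = 1) (hgi : ∀ x ∈ fcr P, g x = 1 → x = 1)
    (hfc : (cfr X).comap f = cfr P) (hgc : (cfr Y).comap g = cfr P)
    (hfr : fcr X ≤ (fcr P).map f ⊔ cfr X) (hgr : fcr Y ≤ (fcr P).map g ⊔ cfr Y) :
    ∃ (K : Type) (_ : Group K) (_ : Finite K) (e₁ : fcr X →* K) (e₂ : fcr Y →* K) (α : X →* MulAut K) (β : Y →* MulAut K),
      RadExt e₁ α ∧ RadExt e₂ β ∧ α.comp f = β.comp g := by
  classical
  -- basic facts
  have nP : (fcr P).Normal := fcr_normal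
  have nX : (fcr X).Normal := fcr_normal
  have nY : (fcr Y).Normal := fcr_normal
  have cXn : (cfr X).Normal := by unfold cfr; exact Subgroup.normal_centralizer
  have cYn : (cfr Y).Normal := by unfold cfr; exact Subgroup.normal_centralizer
  have fN : ∀ x ∈ fcr P, f x ∈ fcr X := fun x hx => map_mem_fcr f hf hx
  have gN : ∀ x ∈ fcr P, g x ∈ fcr Y := fun x hx => map_mem_fcr g hg hx
  have fC : ∀ p, f p ∈ cfr X ↔ p ∈ cfr P := fun p => by rw [← hfc]; rfl
  have gC : ∀ p, g p ∈ cfr Y ↔ p ∈ cfr P := fun p => by rw [← hgc]; rfl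
  have comX : ∀ c ∈ cfr X, ∀ k ∈ fcr X, c * k = k * c := fun c hc k hk =>
    (Subgroup.mem_centralizer_iff.mp hc k hk).symm
  have comY : ∀ c ∈ cfr Y, ∀ k ∈ fcr Y, c * k = k * c := fun c hc k hk =>
    (Subgroup.mem_centralizer_iff.mp hc k hk).symm
  have decX : ∀ k ∈ fcr X, ∃ k₀ ∈ fcr P, ∃ c ∈ cfr X, k = f k₀ * c := by
    intro k hk
    have h1 := hfr hk
    rw [← SetLike.mem_coe, Subgroup.mul_normal] at h1
    obtain ⟨y, ⟨k₀, hk₀, rfl⟩, c, hc, h⟩ := h1
    exact ⟨k₀, hk₀, c, hc, h.symm⟩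
  have decY : ∀ k ∈ fcr Y, ∃ k₀ ∈ fcr P, ∃ c ∈ cfr Y, k = g k₀ * c := by
    intro k hk
    have h1 := hgr hk
    rw [← SetLike.mem_coe, Subgroup.mul_normal] at h1
    obtain ⟨y, ⟨k₀, hk₀, rfl⟩, c, hc, h⟩ := h1
    exact ⟨k₀, hk₀, c, hc, h.symm⟩
  let Z : Subgroup Y := fcr Y ⊓ cfr Y
  have hZn : Z.Normal := Subgroup.normal_inf_normal (fcr Y) (cfr Y)
  have hZf : Finite Z := Finite.of_injective (fun z : Z => (⟨z.1, z.2.1⟩ : fcr Y)) (fun a b h => by
    apply Subtype.ext; exact congrArg (fun t : fcr Y => (t : Y)) h)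
  -- the relation subgroup
  let Θ : Subgroup (fcr X × Z) :=
    { carrier := {x | ∃ z ∈ fcr P ⊓ cfr P, (x.1 : X) * f z = 1 ∧ (x.2 : Y) = g z}
      one_mem' := ⟨1, one_mem _, by simp, by simp⟩
      mul_mem' := by
        rintro ⟨r, s⟩ ⟨r', s'⟩ ⟨z, hz, h1, h2⟩ ⟨z', hz', h1', h2'⟩
        refine ⟨z * z', mul_mem hz hz', ?_, ?_⟩
        · change ((r : X) * r') * f (z * z') = 1
          have h3 : f z * (r' : X) = r' * f z := comX _ ((fC z).mpr hz.2) _ r'.2
          rw [map_mul]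
          calc (r : X) * r' * (f z * f z') = r * (r' * f z) * f z' := by group
            _ = r * (f z * r') * f z' := by rw [h3]
            _ = (r * f z) * (r' * f z') := by group
            _ = 1 := by
              have e1 : (r : X) * f z = 1 := h1
              have e2 : (r' : X) * f z' = 1 := h1'
              rw [e1, e2, one_mul]
        · change ((s : Y) * s') = g (z * z')
          have e1 : (s : Y) = g z := h2
          have e2 : (s' : Y) = g z' := h2'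
          rw [map_mul, e1, e2]
      inv_mem' := by
        rintro ⟨r, s⟩ ⟨z, hz, h1, h2⟩
        have e1 : (r : X) * f z = 1 := h1
        have e2 : (s : Y) = g z := h2
        refine ⟨z⁻¹, inv_mem hz, ?_, ?_⟩
        · change (r : X)⁻¹ * f z⁻¹ = 1
          have : (r : X) = (f z)⁻¹ := eq_inv_of_mul_eq_one_left e1
          rw [this]; simp
        · change (s : Y)⁻¹ = g z⁻¹
          rw [e2, map_inv] }
  have memΘ : ∀ (r : fcr X) (s : Z), (r, s) ∈ Θ ↔ ∃ z ∈ fcr P ⊓ cfr P, (r : X) * f z = 1 ∧ (s : Y) = g z :=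
    fun r s => Iff.rfl
  -- the action of `P` on the product
  let φ : P → fcr X × Z → fcr X × Z := fun p x =>
    (⟨f p * x.1 * (f p)⁻¹, nX.conj_mem _ x.1.2 _⟩, ⟨g p * x.2 * (g p)⁻¹, hZn.conj_mem _ x.2.2 _⟩)
  have hφm : ∀ p x y, φ p (x * y) = φ p x * φ p y := by
    intro p x y
    refine Prod.ext (Subtype.ext ?_) (Subtype.ext ?_)
    · change f p * ((x.1 : X) * y.1) * (f p)⁻¹ = (f p * x.1 * (f p)⁻¹) * (f p * y.1 * (f p)⁻¹)
      group
    · change g p * ((x.2 : Y) * y.2) * (g p)⁻¹ = (g p * x.2 * (g p)⁻¹) * (g p * y.2 * (g p)⁻¹)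
      group
  have hφc : ∀ p q x, φ (p * q) x = φ p (φ q x) := by
    intro p q x
    refine Prod.ext (Subtype.ext ?_) (Subtype.ext ?_)
    · change f (p * q) * (x.1 : X) * (f (p * q))⁻¹ = f p * (f q * x.1 * (f q)⁻¹) * (f p)⁻¹
      rw [map_mul]; group
    · change g (p * q) * (x.2 : Y) * (g (p * q))⁻¹ = g p * (g q * x.2 * (g q)⁻¹) * (g p)⁻¹
      rw [map_mul]; group
  have hφ1 : ∀ x, φ 1 x = x := by
    intro x
    refine Prod.ext (Subtype.ext ?_) (Subtype.ext ?_)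
    · change f 1 * (x.1 : X) * (f 1)⁻¹ = x.1
      simp
    · change g 1 * (x.2 : Y) * (g 1)⁻¹ = x.2
      simp
  have hφΘ : ∀ p, ∀ x ∈ Θ, φ p x ∈ Θ := by
    rintro p ⟨r, s⟩ ⟨z, hz, h1, h2⟩
    have e1 : (r : X) * f z = 1 := h1
    have e2 : (s : Y) = g z := h2
    have cPn : (cfr P).Normal := by unfold cfr; exact Subgroup.normal_centralizer
    refine ⟨p * z * p⁻¹, ⟨nP.conj_mem _ hz.1 _, cPn.conj_mem _ hz.2 _⟩, ?_, ?_⟩
    · change f p * (r : X) * (f p)⁻¹ * f (p * z * p⁻¹) = 1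
      rw [map_mul, map_mul, map_inv]
      calc f p * (r : X) * (f p)⁻¹ * (f p * f z * (f p)⁻¹) = f p * (r * f z) * (f p)⁻¹ := by group
        _ = 1 := by rw [e1]; simp
    · change g p * (s : Y) * (g p)⁻¹ = g (p * z * p⁻¹)
      rw [e2, map_mul, map_mul, map_inv]
  -- normality of `Θ`: it is central
  have hcen : ∀ x ∈ Θ, ∀ y : fcr X × Z, y * x = x * y := by
    rintro ⟨r, s⟩ ⟨z, hz, h1, h2⟩ ⟨r', s'⟩
    have e1 : (r : X) * f z = 1 := h1
    have hr : (r : X) ∈ cfr X := by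
      have : (r : X) = (f z)⁻¹ := eq_inv_of_mul_eq_one_left e1
      rw [this]; exact inv_mem ((fC z).mpr hz.2)
    refine Prod.ext (Subtype.ext ?_) (Subtype.ext ?_)
    · exact (comX _ hr _ r'.2).symm
    · exact (comY _ s.2.2 _ s'.2.1).symm
  have hΘn : Θ.Normal := ⟨fun x hx y => by
    have : y * x * y⁻¹ = x := by rw [hcen x hx y]; group
    rw [this]; exact hx⟩
  let K : Type := (fcr X × Z) ⧸ Θ
  have hKf : Finite K := inferInstance
  let mk : fcr X × Z →* K := QuotientGroup.mk' Θ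
  have hmk : Surjective mk := QuotientGroup.mk'_surjective Θ
  have hmk1 : ∀ x, mk x = 1 ↔ x ∈ Θ := fun x => QuotientGroup.eq_one_iff x
  obtain ⟨a, ha'⟩ := D1_quotAct Θ φ hφm hφc hφ1 hφΘ
  have ha : ∀ (p : P) (x : fcr X × Z), a p (mk x) = mk (φ p x) := fun p x => ha' p x
  have hext : ∀ s t : MulAut K, (∀ x, s (mk x) = t (mk x)) → s = t := by
    intro s t h
    refine MulEquiv.ext fun y => ?_
    obtain ⟨x, rfl⟩ := hmk y
    exact h x
  have hacen : ∀ p ∈ cfr P, a p = 1 := by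
    intro p hp
    refine hext _ _ fun x => ?_
    rw [ha]
    have : φ p x = x := by
      refine Prod.ext (Subtype.ext ?_) (Subtype.ext ?_)
      · change f p * (x.1 : X) * (f p)⁻¹ = x.1
        rw [comX _ ((fC p).mpr hp) _ x.1.2]; group
      · change g p * (x.2 : Y) * (g p)⁻¹ = x.2
        rw [comY _ ((gC p).mpr hp) _ x.2.2.1]; group
    rw [this]; rfl
  have hfk : f.ker ≤ a.ker := fun p hp => by
    rw [MonoidHom.mem_ker] at hp ⊢
    exact hacen p ((fC p).mp (by rw [hp]; exact one_mem _))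
  have hgk : g.ker ≤ a.ker := fun p hp => by
    rw [MonoidHom.mem_ker] at hp ⊢
    exact hacen p ((gC p).mp (by rw [hp]; exact one_mem _))
  obtain ⟨α, hα⟩ := D1_factor f hf a hfk
  obtain ⟨β, hβ⟩ := D1_factor g hg a hgk
  have hαc : ∀ c ∈ cfr X, α c = 1 := by
    intro c hc
    obtain ⟨p, rfl⟩ := hf c
    rw [hα]; exact hacen p ((fC p).mp hc)
  have hβc : ∀ c ∈ cfr Y, β c = 1 := by
    intro c hc
    obtain ⟨p, rfl⟩ := hg c
    rw [hβ]; exact hacen p ((gC p).mp hc)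
  -- the action of the radical of `P` is inner
  have hinn : ∀ k₀ (hk₀ : k₀ ∈ fcr P), ∀ (k : fcr X) (c : X), c ∈ cfr X → (k : X) = f k₀ * c → ∀ z : Z,
      a k₀ = MulAut.conj (mk (k, z)) := by
    intro k₀ hk₀ k c hc hk z
    refine hext _ _ fun x => ?_
    rw [ha, MulAut.conj_apply, ← map_inv, ← map_mul, ← map_mul]
    congr 1
    refine Prod.ext (Subtype.ext ?_) (Subtype.ext ?_)
    · change f k₀ * (x.1 : X) * (f k₀)⁻¹ = (k : X) * x.1 * (k : X)⁻¹
      rw [hk]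
      calc f k₀ * (x.1 : X) * (f k₀)⁻¹ = f k₀ * ((x.1 : X) * c) * c⁻¹ * (f k₀)⁻¹ := by group
        _ = f k₀ * (c * x.1) * c⁻¹ * (f k₀)⁻¹ := by rw [comX _ hc _ x.1.2]
        _ = _ := by group
    · change g k₀ * (x.2 : Y) * (g k₀)⁻¹ = (z : Y) * x.2 * (z : Y)⁻¹
      rw [← comY _ x.2.2.2 _ (gN _ hk₀), comY _ z.2.2 _ x.2.2.1]; group
  -- the embedding of the radical of `X`
  let e₁ : fcr X →* K := mk.comp (MonoidHom.inl (fcr X) Z)
  have he₁ : ∀ k, e₁ k = mk (k, 1) := fun k => rfl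
  -- the embedding of the radical of `Y`
  let fR : fcr P →* fcr X := (f.comp (fcr P).subtype).codRestrict (fcr X) (fun k => fN k k.2)
  let gR : fcr P →* fcr Y := (g.comp (fcr P).subtype).codRestrict (fcr Y) (fun k => gN k k.2)
  let iZ : Z →* fcr Y := (Subgroup.subtype Z).codRestrict (fcr Y) (fun z => z.2.1)
  let μ : fcr P × Z →* fcr Y := MonoidHom.mk' (fun x => gR x.1 * iZ x.2) (by
    rintro ⟨k, z⟩ ⟨k', z'⟩
    apply Subtype.ext
    change g (k * k') * ((z : Y) * z') = (g k * z) * (g k' * z')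
    rw [map_mul]
    calc g k * g k' * ((z : Y) * z') = g k * (g k' * z) * z' := by group
      _ = g k * (z * g k') * z' := by rw [comY _ z.2.2 _ (gN _ k'.2)]
      _ = _ := by group)
  let ν : fcr P × Z →* K := mk.comp (fR.prodMap (MonoidHom.id Z))
  have hμ : ∀ k z, ((μ (k, z) : fcr Y) : Y) = g k * z := fun k z => rfl
  have hν : ∀ k z, ν (k, z) = mk (fR k, z) := fun k z => rfl
  have hμs : Surjective μ := by
    intro y
    obtain ⟨k₀, hk₀, c, hc, h⟩ := decY y y.2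
    have hc2 : c ∈ fcr Y := by
      have : c = (g k₀)⁻¹ * y := by rw [h]; group
      rw [this]; exact mul_mem (inv_mem (gN _ hk₀)) y.2
    refine ⟨(⟨k₀, hk₀⟩, ⟨c, hc2, hc⟩), Subtype.ext ?_⟩
    rw [hμ]; exact h.symm
  have hμν : ∀ k z, μ (k, z) = 1 → ν (k, z) = 1 := by
    intro k z h
    have h1 : g k * (z : Y) = 1 := by rw [← hμ, h]; rfl
    have h2 : (z : Y) = g (k : P)⁻¹ := by rw [map_inv]; exact eq_inv_of_mul_eq_one_right h1
    have h3 : (k : P)⁻¹ ∈ cfr P := (gC _).mp (by rw [← h2]; exact z.2.2)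
    rw [hν, hmk1, memΘ]
    refine ⟨(k : P)⁻¹, ⟨(fcr P).inv_mem k.2, h3⟩, ?_, h2⟩
    change f k * f (k : P)⁻¹ = 1
    rw [map_inv, mul_inv_cancel]
  have hνμ : ∀ k z, ν (k, z) = 1 → μ (k, z) = 1 := by
    intro k z h
    rw [hν, hmk1, memΘ] at h
    obtain ⟨c, hc, h1, h2⟩ := h
    have h3 : f (k * c) = 1 := by rw [map_mul]; exact h1
    have h4 : (k : P) * c = 1 := hfi _ (mul_mem k.2 hc.1) h3
    apply Subtype.ext
    rw [hμ, h2, ← map_mul, h4, map_one]; rfl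
  obtain ⟨e₂, he₂⟩ := D1_factor μ hμs ν (by
    rintro ⟨k, z⟩ h
    exact hμν k z h)
  -- conclusion
  refine ⟨K, inferInstance, hKf, e₁, e₂, α, β, ?_, ?_, ?_⟩
  · have hin : ∀ (k : fcr X) (z : Z), α (k : X) = MulAut.conj (mk (k, z)) := by
      intro k z
      obtain ⟨k₀, hk₀, c, hc, h⟩ := decX k k.2
      rw [← hinn k₀ hk₀ k c hc h z, h, map_mul, hα, hαc c hc, mul_one]
    refine ⟨?_, ?_, fun k => hin k 1, fun c hc => hαc c hc, ?_⟩
    · rw [injective_iff_map_eq_one]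
      intro k hk
      rw [he₁, hmk1, memΘ] at hk
      obtain ⟨z, hz, h1, h2⟩ := hk
      have h3 : z = 1 := hgi z hz.1 h2.symm
      rw [h3, map_one, mul_one] at h1
      exact Subtype.ext h1
    · intro x k
      obtain ⟨p, rfl⟩ := hf x
      rw [hα, he₁, he₁, ha]
      congr 1
      refine Prod.ext (Subtype.ext rfl) (Subtype.ext ?_)
      change g p * ((1 : Z) : Y) * (g p)⁻¹ = ((1 : Z) : Y)
      simp
    · intro x
      obtain ⟨⟨k, z⟩, rfl⟩ := hmk x
      exact ⟨k, hin k z⟩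
  · refine ⟨?_, ?_, ?_, fun c hc => hβc c hc, ?_⟩
    · rw [injective_iff_map_eq_one]
      intro y hy
      obtain ⟨⟨k, z⟩, rfl⟩ := hμs y
      rw [he₂] at hy
      exact hνμ k z hy
    · intro y k
      obtain ⟨p, rfl⟩ := hg y
      obtain ⟨⟨k₀, z⟩, rfl⟩ := hμs k
      rw [hβ, he₂, hν, ha]
      have h1 : (⟨g p * (μ (k₀, z) : fcr Y) * (g p)⁻¹, (fcr_normal (G := Y)).conj_mem _ (μ (k₀, z)).2 (g p)⟩ : fcr Y)
          = μ (⟨p * k₀ * p⁻¹, nP.conj_mem _ k₀.2 _⟩, ⟨g p * z * (g p)⁻¹, hZn.conj_mem _ z.2 _⟩) := by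
        apply Subtype.ext
        change g p * (g k₀ * (z : Y)) * (g p)⁻¹ = g (p * k₀ * p⁻¹) * (g p * z * (g p)⁻¹)
        rw [map_mul, map_mul, map_inv]; group
      rw [h1, he₂, hν]
      congr 1
      refine Prod.ext (Subtype.ext ?_) rfl
      change f p * f k₀ * (f p)⁻¹ = f (p * k₀ * p⁻¹)
      rw [map_mul, map_mul, map_inv]
    · intro k
      obtain ⟨⟨k₀, z⟩, rfl⟩ := hμs k
      rw [he₂, hν, ← hinn k₀ k₀.2 (fR k₀) 1 (one_mem _) (by rw [mul_one]; rfl) z, hμ, map_mul, hβ,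
        hβc _ z.2.2, mul_one]
    · intro x
      obtain ⟨⟨k, z⟩, rfl⟩ := hmk x
      obtain ⟨k₀, hk₀, c, hc, h⟩ := decX k k.2
      exact ⟨g k₀, by rw [hβ, hinn k₀ hk₀ k c hc h z]⟩
  · refine MonoidHom.ext fun p => ?_
    rw [MonoidHom.comp_apply, MonoidHom.comp_apply, hα, hβ]

end Pool.SC
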