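import Pool.Agent.Lib.MP_565fc2_lc.SM.Defs

/-!
# SM-D2: enlarging the radical

`D = (K ⋊[α] G) ⧸ Θ` (`SemidirectProduct`), `Θ` the range of `k ↦ (e k⁻¹, k)`, `k ∈ fcr G`: this is a homomorphism because `α k` is conjugation with `e k` (`h.inner`), and `Θ` is normal: `(1, g)`
conjugates `(e k⁻¹, k)` to `(e k'⁻¹, k')`, `k' = g k g⁻¹` (`h.conj`), `(x, 1)` commutes with it (`h.inner`).  `j g = [(1, g)]`, `i x = [(x, 1)]`; both are injective (`h.inj`).
`π : D →* G ⧸ fcr G`, `[(x, g)] ↦ g`: surjective, kernel `i.range`, finite.  `NEH D` by `neh_iff_of_finKer b4` twice (`QuotientGroup.mk' (fcr G)` and `π`; `fcr G` is finite by `b1`).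
`fcr D ≤ i.range`: `map_mem_fcr` for `π` and `fcr_quotient_fcr`; `i.range ≤ fcr D` by `le_fcr`.
-/

set_option autoImplicit false

namespace Pool.SC

open Function

theorem bigGroup {G K : Type} [Group G] [Group K] [Finite K] (hG : NEH G) {e : fcr G →* K} {α : G →* MulAut K}
    (h : RadExt e α) :
    ∃ (D : Type) (_ : Group D) (j : G →* D) (i : K →* D), NEH D ∧ Injective j ∧ Injective i ∧ i.range = fcr D ∧
      (∀ g k, j g * i k * (j g)⁻¹ = i (α g k)) ∧ j.range ⊔ i.range = ⊤ := by
  have hfG : Finite (fcr G) := b1 G hG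
  have hrange : ((fcr G).subtype).range = fcr G := Subgroup.range_subtype _
  have hn : ((fcr G).subtype).range.Normal := by
    rw [hrange]
    infer_instance
  obtain ⟨D, _, u, v, π, hu, hv, hact, -, hgen, hπs, hπk, -⟩ :=
    crossedPushout (fcr G).subtype e α (Subgroup.subtype_injective _) h.inj hn (by
      intro g x x' hx
      rw [h.conj g x]
      congr 1
      exact Subtype.ext hx) (by
      intro x m
      have h1 := h.inner x
      have h2 : α ((fcr G).subtype x) = MulAut.conj (e x) := h1
      rw [h2, MulAut.conj_apply])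
  have hfin : Finite v.range := Finite.of_surjective v.rangeRestrict v.rangeRestrict_surjective
  have hker : Finite π.ker := by rw [hπk]; exact hfin
  have hnv : v.range.Normal := by rw [← hπk]; infer_instance
  have hfr : Finite ((fcr G).subtype).range := by
    rw [hrange]
    exact hfG
  have hneh : NEH D := by
    rw [neh_iff_of_finKer b4 π hπs hker]
    rw [← neh_iff_of_finKer b4 (QuotientGroup.mk' ((fcr G).subtype).range) (QuotientGroup.mk'_surjective _)
      (by rw [QuotientGroup.ker_mk']; exact hfr)]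
    exact hG
  refine ⟨D, _, u, v, hneh, hu, hv, ?_, hact, ?_⟩
  · apply le_antisymm
    · exact le_fcr v.range
    · intro x hx
      have h1 : π x ∈ fcr (G ⧸ ((fcr G).subtype).range) := map_mem_fcr π hπs hx
      obtain ⟨g, hg⟩ := QuotientGroup.mk'_surjective ((fcr G).subtype).range (π x)
      have h2 : g ∈ fcr G := by
        refine mem_fcr_of_map (QuotientGroup.mk' ((fcr G).subtype).range) (QuotientGroup.mk'_surjective _)
          (by rw [QuotientGroup.ker_mk']; exact hfr) ?_
        rw [hg]
        exact h1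
      have h3 : π x = 1 := by
        rw [← hg]
        exact (QuotientGroup.eq_one_iff g).2 (by rw [hrange]; exact h2)
      rw [← hπk]
      exact h3
  · rw [eq_top_iff]
    intro x _
    obtain ⟨m, g, rfl⟩ := hgen x
    exact Subgroup.mul_mem _ (Subgroup.mem_sup_right ⟨m, rfl⟩) (Subgroup.mem_sup_left ⟨g, rfl⟩)

end Pool.SC
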