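import Pool.Agent.Lib.MP_565fc2_lc.SM.D2

/-!
# SM-D3: `G` is a limit of groups with the bigger radical

`bigGroup` gives `D`, `j`, `i`.  `ScGenP` (`scGenP dehnHyp b1 b4`) for `E = i.range` (`= fcr D`, finite, normal), `κ = Unit`, `H () = α.ker.map j`: it centralizes `E`, and it has finite index in `D` (`α.ker` has
finite index in `G` as `MulAut K` is finite; every element of `D` is `j g * i k`); `h` from `exists_lox_mem b2 b3`; `FinConj H x → x ∈ fcr D` by `finConj_top_of_finiteIndex`.
`ι = K`, relators `(i k)⁻¹ * j (x k) * u`, `α (x k) = conj k` (`h.inn`): `(i k)⁻¹ * j (x k)` centralizes `E`.  `M` replaced by `j '' M ∪ i '' {k | k ≠ 1}`.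
`f = q ∘ j`, surjective because `q (i k) = q (j (x k)) * q (u k)` and `u k ∈ j.range`; the new `i` is `q ∘ i`; `fcr L ≤` its range by the last conclusion of `ScGenP`, `≥` by `le_fcr`.
`actI (q ∘ i) = actI i` (`actI_comp`, SN/V2), and `actI i = α.range`: `j g * i k₀` acts on `K` like `α g * α (x k₀)`.
-/

set_option autoImplicit false

namespace Pool.SC

open Function

theorem approx {G K : Type} [Group G] [Group K] [Finite K] (hG : NEH G) {e : fcr G →* K} {α : G →* MulAut K}
    (h : RadExt e α) (M : Set G) (hM : M.Finite) (h1 : (1 : G) ∉ M) :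
    ∃ (L : Type) (_ : Group L) (f : G →* L) (i : K →* L), Surjective f ∧ NEH L ∧ (∀ m ∈ M, f m ≠ 1) ∧
      Injective i ∧ i.range = fcr L ∧ actI i = α.range := by
  classical
  obtain ⟨D, _, j, i, hD, hj, hi, hir, hact, hgen⟩ := bigGroup hG h
  have hn : i.range.Normal := by rw [hir]; infer_instance
  have hf : Finite i.range := Finite.of_surjective i.rangeRestrict i.rangeRestrict_surjective
  -- every element of `D` is `i k * j g`
  have hdec : ∀ d : D, ∃ (k : K) (g : G), d = i k * j g := by
    intro d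
    have hd : d ∈ i.range ⊔ j.range := by
      rw [sup_comm, hgen]
      exact Subgroup.mem_top d
    obtain ⟨a, ⟨k, rfl⟩, b, ⟨g, rfl⟩, hab⟩ := Subgroup.mem_sup_of_normal_left.1 hd
    exact ⟨k, g, hab.symm⟩
  -- the subgroup `H`
  have hfq : Finite (G ⧸ α.ker) :=
    Finite.of_equiv _ (QuotientGroup.quotientKerEquivRange α).symm.toEquiv
  set H : Subgroup D := α.ker.map j with hH
  have hHfi : H.FiniteIndex := by
    let F : K × (G ⧸ α.ker) → D ⧸ H := fun p => QuotientGroup.mk (i p.1 * j p.2.out)
    have hF : Surjective F := by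
      intro y
      induction y using QuotientGroup.induction_on with
      | H d =>
        obtain ⟨k, g, rfl⟩ := hdec d
        refine ⟨(k, (QuotientGroup.mk g : G ⧸ α.ker)), ?_⟩
        change (QuotientGroup.mk (i k * j (QuotientGroup.mk g : G ⧸ α.ker).out) : D ⧸ H) = _
        rw [QuotientGroup.eq]
        have h2 : ((QuotientGroup.mk g : G ⧸ α.ker).out)⁻¹ * g ∈ α.ker := by
          rw [← QuotientGroup.eq]
          exact Quotient.out_eq' _
        refine ⟨_, h2, ?_⟩
        rw [map_mul, map_inv]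
        group
    have : Finite (D ⧸ H) := Finite.of_surjective F hF
    exact Subgroup.finiteIndex_of_finite_quotient
  have hcentH : H ≤ Subgroup.centralizer (i.range : Set D) := by
    rintro _ ⟨g, hg, rfl⟩
    rw [Subgroup.mem_centralizer_iff]
    rintro _ ⟨k, rfl⟩
    have h2 := hact g k
    have h3 : α g = 1 := hg
    rw [h3, MulAut.one_apply, mul_inv_eq_iff_eq_mul] at h2
    exact h2.symm
  obtain ⟨h₀, hh₀, hl₀⟩ := exists_lox_mem b2 b3 hD.1 hD.infinite_A H
  choose x hx using h.inn
  obtain ⟨u, hu, hNEH, hMav, hfcr⟩ := scGenP dehnHyp b1 b4 D i.range hD.1 Unit (fun _ => H) (fun _ => h₀) ⟨()⟩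
    (fun _ => hcentH) (fun _ => hh₀) (fun _ => hl₀) (fun σ τ hne => absurd (Subsingleton.elim σ τ) hne)
    (fun _ y hy => by
      rw [hir]
      exact finConj_top_of_finiteIndex H hy)
    K (fun _ => ()) (fun k => (i k)⁻¹ * j (x k))
    (by
      intro k
      rw [Subgroup.mem_centralizer_iff]
      rintro _ ⟨l, rfl⟩
      have h2 := hact (x k) l
      rw [hx k, MulAut.conj_apply, mul_inv_eq_iff_eq_mul, map_mul, map_mul, map_inv] at h2
      rw [mul_assoc (i k)⁻¹ (j (x k)) (i l), h2]
      group)
    (j '' M ∪ i '' {k | k ≠ 1}) ((hM.image _).union ((Set.toFinite _).image _))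
    (by
      rintro (⟨m, hm, h2⟩ | ⟨k, hk, h2⟩)
      · have : m = 1 := by apply hj; rw [map_one]; exact h2
        exact h1 (this ▸ hm)
      · apply hk
        apply hi
        rw [map_one]
        exact h2)
  set N : Subgroup D := Subgroup.normalClosure (Set.range fun k => (i k)⁻¹ * j (x k) * u k) with hN
  let q : D →* D ⧸ N := QuotientGroup.mk' N
  have hqs : Surjective q := QuotientGroup.mk'_surjective N
  have hrel : ∀ k, q (i k) = q (j (x k)) * q (u k) := by
    intro k
    have h2 : q ((i k)⁻¹ * j (x k) * u k) = 1 := by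
      rw [← MonoidHom.mem_ker, QuotientGroup.ker_mk']
      exact Subgroup.subset_normalClosure ⟨k, rfl⟩
    rw [map_mul, map_mul, map_inv, mul_assoc, inv_mul_eq_one] at h2
    exact h2
  have hker : ∀ m, q m = 1 → m ∈ N := by
    intro m h2
    rwa [← MonoidHom.mem_ker, QuotientGroup.ker_mk'] at h2
  have hsf : Surjective (q.comp j) := by
    intro y
    obtain ⟨d, rfl⟩ := hqs y
    obtain ⟨k, g, rfl⟩ := hdec d
    obtain ⟨c, -, hc⟩ := hu k
    refine ⟨x k * c * g, ?_⟩
    rw [MonoidHom.comp_apply, map_mul, map_mul, map_mul, map_mul, map_mul, hrel k, ← hc]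
  have hinj : Injective (q.comp i) := by
    rw [injective_iff_map_eq_one]
    intro k hk
    by_contra hne
    exact hMav (i k) (Or.inr ⟨k, hne, rfl⟩) (hker _ hk)
  refine ⟨D ⧸ N, inferInstance, q.comp j, q.comp i, hsf, hNEH, ?_, hinj, ?_, ?_⟩
  · intro m hm h2
    exact hMav (j m) (Or.inl ⟨m, hm, rfl⟩) (hker _ h2)
  · apply le_antisymm
    · have hnr : (q.comp i).range.Normal := by
        rw [MonoidHom.range_comp]
        exact hn.map _ hqs
      have hfr : Finite (q.comp i).range :=
        Finite.of_surjective _ (MonoidHom.rangeRestrict_surjective _)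
      exact le_fcr _
    · refine hfcr.trans ?_
      rintro _ ⟨_, ⟨k, rfl⟩, rfl⟩
      exact ⟨k, rfl⟩
  · rw [actI_comp i q hqs hn hinj]
    apply le_antisymm
    · intro a ha
      obtain ⟨d, hd⟩ := (mem_actI i a).1 ha
      obtain ⟨k₀, g, rfl⟩ := hdec d
      refine ⟨x k₀ * g, ?_⟩
      ext k
      apply hi
      rw [← hd k, map_mul, hx k₀, MulAut.mul_apply, MulAut.conj_apply, map_mul, map_mul, map_inv, ← hact g k]
      group
    · rintro _ ⟨g, rfl⟩
      exact (mem_actI i _).2 ⟨j g, fun k => hact g k⟩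

end Pool.SC
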