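import Pool.Agent.Lib.MP_565fc2_lc.SN.W2

/-!
# SM-Defs: classes of hyperbolic groups given by their action on the finite radical (MP_565fc2_lc, unconditional results)
-/

set_option autoImplicit false

namespace Pool.SC

open Function

noncomputable section

/-! ### for the statements -/

/-- every system of equations `w = 1` in finitely many variables is equivalent, in all members of `F`, to a finite subsystem -/
def NoethFam (F : (S : Type) → [Group S] → Prop) : Prop :=
  ∀ (m : ℕ) (W : Set (FreeGroup (Fin m))), ∃ W₀ ⊆ W, W₀.Finite ∧ ∀ (S : Type) [Group S], F S →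
    ∀ s : Fin m → S, (∀ w ∈ W₀, FreeGroup.lift s w = 1) → ∀ w ∈ W, FreeGroup.lift s w = 1

/-- the groups `GL n k`, `k` a field -/
def GLF (n : ℕ) : (S : Type) → [Group S] → Prop := fun S _ =>
  ∃ (k : Type) (_ : Field k), Nonempty (S ≃* Matrix.GeneralLinearGroup (Fin n) k)

/-- `A` has a subnormal series whose factors embed in members of `F` -/
inductive Poly (F : (S : Type) → [Group S] → Prop) : (A : Type) → [Group A] → Prop
  | triv (A : Type) [Group A] : Subsingleton A → Poly F A
  | step (A S : Type) [Group A] [Group S] (f : A →* S) : F S → Poly F f.ker → Poly F A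

/-- there is an infinite sequence of finite groups `A n` with the property `P` and surjective, not injective homomorphisms
`A (n + 1) → A n` whose kernels have only trivial homomorphisms to members of `F` -/
def DescChain (F P : (S : Type) → [Group S] → Prop) : Prop :=
  ∃ (A : ℕ → Type) (_ : ∀ n, Group (A n)) (g : ∀ n, A (n + 1) →* A n),
    ∀ n, Finite (A n) ∧ P (A n) ∧ Surjective (g n) ∧ ¬ Injective (g n) ∧
      ∀ (S : Type) [Group S], F S → ∀ ρ : (g n).ker →* S, ρ = 1

/-- the marked non-elementary hyperbolic groups `G` such that `G / C` has the property `P`, where `C` is the centralizer of the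
largest finite normal subgroup of `G` -/
def HA (P : (A : Type) → [Group A] → Prop) : Set MGrp :=
  {p | NEH p.grp ∧ ∃ N : Subgroup p.grp, IsRad N ∧ ∃ (A : Type) (_ : Group A) (π : p.grp →* A),
    Surjective π ∧ π.ker = Subgroup.centralizer (N : Set p.grp) ∧ P A}

/-! ### for the proofs -/

/-- the centralizer of the finite radical -/
def cfr (G : Type) [Group G] : Subgroup G := Subgroup.centralizer (fcr G : Set G)

/-- all homomorphisms with finite image to members of `F` are trivial -/
def FPerf (F : (S : Type) → [Group S] → Prop) (B : Type) [Group B] : Prop :=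
  ∀ (S : Type) [Group S], F S → ∀ ρ : B →* S, Finite ρ.range → ρ = 1

/-- `f` is a quotient map which keeps the radical and the elements of `M` -/
structure Keep {D L : Type} [Group D] [Group L] (M : Set D) (f : D →* L) : Prop where
  surj : Surjective f
  neh : NEH L
  avoid : ∀ m ∈ M, f m ≠ 1
  inj : ∀ x ∈ fcr D, f x = 1 → x = 1
  fcr_eq : fcr L = (fcr D).map f

/-- a finite group `K` which contains the radical of `G` (by `e`), with a compatible action `α` of `G` -/
structure RadExt {G K : Type} [Group G] [Group K] (e : fcr G →* K) (α : G →* MulAut K) : Prop where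
  inj : Injective e
  conj : ∀ (g : G) (k : fcr G), ((α g) (e k) : K) = e ⟨g * k * g⁻¹, (fcr_normal (G := G)).conj_mem k k.2 g⟩
  inner : ∀ k : fcr G, α (k : G) = MulAut.conj (e k)
  cent : cfr G ≤ α.ker
  inn : ∀ x : K, ∃ g : G, α g = MulAut.conj x

end

end Pool.SC
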