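import Pool.Agent.Lib.MP_565fc2_lc.SM.C2
import Pool.Agent.Lib.MP_565fc2_lc.SM.D1
import Pool.Agent.Lib.MP_565fc2_lc.SM.D3

/-!
# SM-E1: the zero-one law and the theorem

`hka_sub_HA`: let `q' ∈ HKA K α.range`, `i : K →* q'.grp`, `actI i = α.range`.  `θ : q'.grp →* MulAut K` with `x * i k * x⁻¹ = i (θ x k)`: `θ.range = actI i`, `θ.ker = centralizer i.range = cfr q'.grp`.
`q ∈ HA P` gives `π : q.grp →* A` surjective with kernel `cfr q.grp = α.ker` (`RadExt.cent`; conversely `α g = 1` implies that `g` centralizes `fcr q.grp` by `RadExt.conj`, `RadExt.inj`), so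
`α.range ≃* A` (`QuotientGroup.quotientKerEquivRange`, `quotientKerEquivOfSurjective`); compose `θ` with it.
`close_HKA`: `exists_finite_avoid` and `approx`, `quoM q f`, `quoE` (as in SN/W1, `trans_HKA`; `t_neh_equiv`, `actI_comp`; `hka_of` is private in W1: copy it).
`q1_HA`: `q1_of_trans (isoInv_HA P)`; `V` from `localConst`; for `V₁ ∋ q₁`, `V₂ ∋ q₂`: `pushRad` gives `K`, `α`, `β` with `α.range = β.range` (`α.comp f = β.comp g`, `f`, `g` surjective);
`close_HKA` gives `L₁ ∈ V₁ ∩ HKA K α.range`, `L₂ ∈ V₂ ∩ HKA K α.range`; `trans_HKA` with `H = HKA K α.range` and `V = univ` gives two isomorphic marked groups in `V₁`, `V₂` which are in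
`HKA K α.range ⊆ HA P`.
-/

set_option autoImplicit false

namespace Pool.SC

open Function

private theorem E1_fcr_equiv {G G' : Type} [Group G] [Group G'] (e : G ≃* G') : (fcr G).map e.toMonoidHom = fcr G' := by
  apply le_antisymm
  · rintro _ ⟨x, hx, rfl⟩
    exact map_mem_fcr e.toMonoidHom e.surjective hx
  · intro y hy
    exact ⟨e.symm y, map_mem_fcr e.symm.toMonoidHom e.symm.surjective hy, e.apply_symm_apply y⟩

private theorem E1_hka_of {K : Type} [Group K] {A : Subgroup (MulAut K)} {L : Type} [Group L] {q : MGrp} (e : L ≃* q.grp)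
    (hL : NEH L) (i : K →* L) (hi : Injective i) (hr : i.range = fcr L) (hA : actI i = A) : q ∈ HKA K A := by
  have hinj : Injective (e.toMonoidHom.comp i) := e.injective.comp hi
  refine ⟨t_neh_equiv e hL, e.toMonoidHom.comp i, hinj, ?_, ?_⟩
  · rw [MonoidHom.range_comp, hr, E1_fcr_equiv]
  · rw [actI_comp i e.toMonoidHom e.surjective (hr ▸ fcr_normal) hinj, hA]

/-- the action by conjugation on a normal subgroup -/
private theorem E1_theta {K G : Type} [Group K] [Group G] (i : K →* G) (hi : Injective i) (hn : i.range.Normal) :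
    ∃ θ : G →* MulAut K, ∀ x k, x * i k * x⁻¹ = i (θ x k) := by
  let e : K ≃* i.range := MonoidHom.ofInjective hi
  let θ : G →* MulAut K := (MulAut.congr e.symm).toMonoidHom.comp (MulAut.conjNormal (H := i.range))
  refine ⟨θ, ?_⟩
  intro x k
  have h1 : e (θ x k) = MulAut.conjNormal x (e k) := by
    change e (e.symm (MulAut.conjNormal x (e k))) = _
    rw [MulEquiv.apply_symm_apply]
  have h2 := congrArg (fun t : i.range => (t : G)) h1
  simp only [MulAut.conjNormal_apply] at h2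
  exact h2.symm

private theorem E1_ker {G K : Type} [Group G] [Group K] {e : fcr G →* K} {α : G →* MulAut K} (h : RadExt e α) :
    α.ker = cfr G := by
  apply le_antisymm
  · intro g hg
    rw [MonoidHom.mem_ker] at hg
    change g ∈ Subgroup.centralizer (fcr G : Set G)
    rw [Subgroup.mem_centralizer_iff]
    intro k hk
    have h1 := h.conj g ⟨k, hk⟩
    rw [hg, MulAut.one_apply] at h1
    have h2 := congrArg Subtype.val (h.inj h1)
    have h3 : k = g * k * g⁻¹ := h2
    calc k * g = g * k * g⁻¹ * g := by rw [← h3]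
      _ = g * k := by group
  · exact h.cent

theorem hka_sub_HA {P : (A : Type) → [Group A] → Prop} {q : MGrp} (hq : q ∈ HA P) {K : Type} [Group K] [Finite K]
    {e : fcr q.grp →* K} {α : q.grp →* MulAut K} (h : RadExt e α) : HKA K α.range ⊆ HA P := by
  rintro q' ⟨hN', i, hi, hr, hA⟩
  obtain ⟨hN, A, _, π, hπ, hπk, hPA⟩ := mem_HA.1 hq
  have hn : i.range.Normal := by
    rw [hr]
    exact fcr_normal
  obtain ⟨θ, hθ⟩ := E1_theta i hi hn
  have hrange : θ.range = α.range := by
    rw [← hA]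
    ext a
    rw [mem_actI, MonoidHom.mem_range]
    constructor
    · rintro ⟨x, rfl⟩
      exact ⟨x, hθ x⟩
    · rintro ⟨x, hx⟩
      refine ⟨x, ?_⟩
      ext k
      apply hi
      rw [← hθ, hx]
  have hker : θ.ker = cfr q'.grp := by
    ext x
    change x ∈ θ.ker ↔ x ∈ Subgroup.centralizer (fcr q'.grp : Set q'.grp)
    rw [MonoidHom.mem_ker, Subgroup.mem_centralizer_iff]
    constructor
    · intro hx y hy
      have hy' : y ∈ i.range := by
        rw [hr]
        exact hy
      obtain ⟨k, rfl⟩ := hy'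
      have h1 := hθ x k
      rw [hx, MulAut.one_apply] at h1
      calc i k * x = x * i k * x⁻¹ * x := by rw [h1]
        _ = x * i k := by group
    · intro hx
      ext k
      apply hi
      have hk : i k ∈ (fcr q'.grp : Set q'.grp) := by
        change i k ∈ fcr q'.grp
        rw [← hr]
        exact ⟨k, rfl⟩
      rw [← hθ, MulAut.one_apply, ← hx (i k) hk]
      group
  have hkk : α.ker = π.ker := by rw [E1_ker h, hπk]
  let ψ : α.range ≃* A := (QuotientGroup.quotientKerEquivRange α).symm.trans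
    ((QuotientGroup.quotientMulEquivOfEq hkk).trans (QuotientGroup.quotientKerEquivOfSurjective π hπ))
  let θ' : q'.grp →* α.range := θ.codRestrict α.range (fun x => by rw [← hrange]; exact ⟨x, rfl⟩)
  have hθ' : Surjective θ' := by
    rintro ⟨a, ha⟩
    rw [← hrange] at ha
    obtain ⟨x, hx⟩ := ha
    exact ⟨x, Subtype.ext hx⟩
  refine mem_HA.2 ⟨hN', A, inferInstance, ψ.toMonoidHom.comp θ', ?_, ?_, hPA⟩
  · exact ψ.surjective.comp hθ'
  · rw [← hker]
    ext x
    rw [MonoidHom.mem_ker, MonoidHom.mem_ker]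
    constructor
    · intro hx
      have h1 : ψ (θ' x) = 1 := hx
      have h2 : θ' x = 1 := by
        rw [← map_one ψ] at h1
        exact ψ.injective h1
      exact congrArg Subtype.val h2
    · intro hx
      have h2 : θ' x = 1 := Subtype.ext hx
      change ψ (θ' x) = 1
      rw [h2, map_one]

theorem close_HKA {q : MGrp} (hq : NEH q.grp) {K : Type} [Group K] [Finite K] {e : fcr q.grp →* K}
    {α : q.grp →* MulAut K} (h : RadExt e α) {U : Set MGrp} (hU : IsOpen U) (hqU : q ∈ U) :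
    (U ∩ HKA K α.range).Nonempty := by
  obtain ⟨M, hMf, hM1, hMU⟩ := exists_finite_avoid hU hqU
  obtain ⟨L, _, f, i, hf, hL, hfM, hi, hr, hA⟩ := approx hq h M hMf hM1
  exact ⟨quoM q f, hMU L f hfM, E1_hka_of (quoE q f hf).symm hL i hi hr hA⟩

theorem q1_HA {F P : (S : Type) → [Group S] → Prop} (hF : NoethFam F) (hch : ¬ DescChain F P) : Q1H (HA P) := by
  refine q1_of_trans (isoInv_HA P) ?_
  intro U hU hne
  obtain ⟨p, hpHA, V, hVU, hVo, hpV, hV⟩ := localConst hF hch U hU hne
  refine ⟨V, hVU, hVo, ⟨p, hpV, hpHA⟩, ?_⟩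
  rintro V1 V2 hV1 hV2 hV1o hV2o ⟨q1, hq1V, hq1H⟩ ⟨q2, hq2V, hq2H⟩
  obtain ⟨f, hf, hfi, hfc, hfr⟩ := hV q1 (hV1 hq1V) hq1H
  obtain ⟨g, hg, hgi, hgc, hgr⟩ := hV q2 (hV2 hq2V) hq2H
  obtain ⟨K, _, _, e₁, e₂, α, β, h1, h2, hab⟩ := pushRad (b1 _ hq1H.1) (b1 _ hq2H.1) f g hf hg hfi hgi hfc hgc hfr hgr
  have hrange : α.range = β.range := by
    have ha : (α.comp f).range = α.range := by
      rw [MonoidHom.range_comp, MonoidHom.range_eq_top.2 hf, ← MonoidHom.range_eq_map]
    have hb : (β.comp g).range = β.range := by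
      rw [MonoidHom.range_comp, MonoidHom.range_eq_top.2 hg, ← MonoidHom.range_eq_map]
    rw [← ha, ← hb, hab]
  obtain ⟨L1, hL1V, hL1⟩ := close_HKA hq1H.1 h1 hV1o hq1V
  obtain ⟨L2, hL2V, hL2⟩ := close_HKA hq2H.1 h2 hV2o hq2V
  rw [← hrange] at hL2
  have ht : Trans (HKA K α.range) Set.univ :=
    trans_HKA amalg freeProdHyp freeProdLox freeProdFC (scGenP dehnHyp b1 b4) b2 b3 b4 α.range
      (fun _ _ h => h) (fun _ h => h)
  obtain ⟨M1, hM1V, M2, hM2V, hM1, hM⟩ := ht V1 V2 (Set.subset_univ _) (Set.subset_univ _) hV1o hV2o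
    ⟨L1, hL1V, hL1⟩ ⟨L2, hL2V, hL2⟩
  exact ⟨M1, hM1V, M2, hM2V, hka_sub_HA hq1H h1 hM1, hM⟩

end Pool.SC
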