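import Pool.Agent.Lib.MP_565fc2_lc.SM.E1
import Pool.Agent.Lib.MP_565fc2_lc.SM.A1
import Pool.Agent.Lib.MP_565fc2_lc.SM.A2

/-!
# SM-E2: summary
-/

set_option autoImplicit false

namespace Pool.SC

open Function

theorem q1_poly {F : (S : Type) → [Group S] → Prop} (hF : NoethFam F) : Q1H (HA (Poly F)) :=
  q1_HA hF (not_descChain_poly F)

theorem q1_polyGL (n : ℕ) : Q1H (HA (Poly (GLF n))) := q1_poly (noethFam_GLF n)

/-- the centralizer of a finite normal subgroup has finite index -/
private theorem E2_fin {G : Type} [Group G] (N : Subgroup G) [N.Normal] [Finite N] :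
    Finite (G ⧸ Subgroup.centralizer (N : Set G)) := by
  have hk : (MulAut.conjNormal (H := N)).ker = Subgroup.centralizer (N : Set G) := by
    ext g
    rw [MonoidHom.mem_ker, Subgroup.mem_centralizer_iff]
    constructor
    · intro h x hx
      have h1 : ((MulAut.conjNormal g ⟨x, hx⟩ : N) : G) = x := by rw [h]; rfl
      rw [MulAut.conjNormal_apply] at h1
      have h2 : g * x = x * g := by
        calc g * x = (g * x * g⁻¹) * g := by group
          _ = x * g := by rw [h1]
      exact h2.symm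
    · intro h
      ext x
      rw [MulAut.conjNormal_apply, MulAut.one_apply, ← h x x.2]
      group
  have : Finite (MulAut N) := by
    refine Finite.of_injective (fun e : MulAut N => (e : N → N)) ?_
    intro e f h
    exact DFunLike.coe_injective h
  rw [← hk]
  exact Finite.of_injective _ (QuotientGroup.kerLift_injective (MulAut.conjNormal (H := N)))

/-- a finite group embeds in some `GL n ℚ` -/
private theorem E2_emb (A : Type) [Group A] [Finite A] :
    ∃ f : A →* Matrix.GeneralLinearGroup (Fin (Nat.card A)) ℚ, Injective f := by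
  classical
  obtain ⟨e⟩ : Nonempty (A ≃ Fin (Nat.card A)) := ⟨Finite.equivFin A⟩
  obtain ⟨ρ, hρ⟩ : ∃ ρ : A →* Equiv.Perm (Fin (Nat.card A)), Injective ρ := by
    refine ⟨(e.permCongrHom.toMonoidHom).comp (MulAction.toPermHom A A), ?_⟩
    refine e.permCongrHom.injective.comp ?_
    exact MulAction.toPerm_injective
  obtain ⟨g, hg⟩ : ∃ g : A →* Matrix (Fin (Nat.card A)) (Fin (Nat.card A)) ℚ, Injective g := by
    refine ⟨⟨⟨fun a => (ρ a)⁻¹.permMatrix ℚ, ?_⟩, ?_⟩, ?_⟩
    · rw [map_one, inv_one, Matrix.permMatrix_one]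
    · intro a b
      change (ρ (a * b))⁻¹.permMatrix ℚ = (ρ a)⁻¹.permMatrix ℚ * (ρ b)⁻¹.permMatrix ℚ
      rw [map_mul, mul_inv_rev, Matrix.permMatrix_mul]
    · intro a b h
      have h1 : (ρ a)⁻¹.permMatrix ℚ = (ρ b)⁻¹.permMatrix ℚ := h
      have h2 := PEquiv.toMatrix_injective h1
      have h3 : (ρ a)⁻¹ = (ρ b)⁻¹ := by
        ext x
        have h4 := congrArg (fun q : Fin (Nat.card A) ≃. Fin (Nat.card A) => q x) h2
        simp only [Equiv.toPEquiv_apply, Option.some.injEq] at h4
        exact congrArg _ h4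
      exact hρ (inv_injective h3)
  refine ⟨g.toHomUnits, ?_⟩
  intro a b h
  refine hg ?_
  have h1 := congrArg (fun u : Matrix.GeneralLinearGroup (Fin (Nat.card A)) ℚ => (u : Matrix (Fin (Nat.card A)) (Fin (Nat.card A)) ℚ)) h
  simpa using h1

/-- the classes exhaust all non-elementary hyperbolic groups -/
theorem exists_polyGL (p : MGrp) (hp : p ∈ HH) : ∃ n, p ∈ HA (Poly (GLF n)) := by
  have hp' : NEH p.grp := hp
  have hfin : Finite (fcr p.grp) := b1 p.grp hp'
  have hn : (fcr p.grp).Normal := fcr_normal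
  have hc : (Subgroup.centralizer (fcr p.grp : Set p.grp)).Normal := inferInstance
  have hA : Finite (p.grp ⧸ Subgroup.centralizer (fcr p.grp : Set p.grp)) := E2_fin (fcr p.grp)
  obtain ⟨f, hf⟩ := E2_emb (p.grp ⧸ Subgroup.centralizer (fcr p.grp : Set p.grp))
  refine ⟨Nat.card (p.grp ⧸ Subgroup.centralizer (fcr p.grp : Set p.grp)), hp', fcr p.grp, (isRad_iff b1 hp' _).2 rfl,
    p.grp ⧸ Subgroup.centralizer (fcr p.grp : Set p.grp), inferInstance, QuotientGroup.mk' _,
    QuotientGroup.mk'_surjective _, QuotientGroup.ker_mk' _, ?_⟩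
  refine Poly.step _ _ f ⟨ℚ, inferInstance, ⟨MulEquiv.refl _⟩⟩ (Poly.triv _ ?_)
  refine ⟨fun x y => Subtype.ext ?_⟩
  have hx : f x = 1 := x.2
  have hy : f y = 1 := y.2
  exact hf (hx.trans hy.symm)

end Pool.SC
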