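import Pool.Agent.Lib.MP_565fc2_lc.SM.E2

/-!
# SM-E3: the class of groups whose action on the finite radical has a subnormal series with factors in a noetherian family or linear of bounded degree
-/

set_option autoImplicit false

namespace Pool.SC

open Function

theorem noethFam_or {F F' : (S : Type) → [Group S] → Prop} (hF : NoethFam F) (hF' : NoethFam F') :
    NoethFam fun S _ => F S ∨ F' S := by
  intro m W
  obtain ⟨W₀, h0, hf0, hW0⟩ := hF m W
  obtain ⟨W₁, h1, hf1, hW1⟩ := hF' m W
  refine ⟨W₀ ∪ W₁, Set.union_subset h0 h1, hf0.union hf1, ?_⟩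
  intro S _ hS s hs w hw
  rcases hS with hS | hS
  · exact hW0 S hS s (fun v hv => hs v (Or.inl hv)) w hw
  · exact hW1 S hS s (fun v hv => hs v (Or.inr hv)) w hw

theorem q1_linear (n : ℕ) {F : (S : Type) → [Group S] → Prop} (hF : NoethFam F) :
    Q1H (HA (Poly fun S _ => F S ∨ GLF n S)) :=
  q1_poly (noethFam_or hF (noethFam_GLF n))

end Pool.SC
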